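import Pool.Agent.H622R3.SM.Model

/-!
# Strongly polynomial algorithms on classes of systems; Toeplitz and Hankel systems
-/

set_option autoImplicit false

namespace Pool.Agent.U23.LR

open Pool.Agent.H558R2 Pool.Agent.H622R3.SM

/-- A class of instances `(A, b)` of linear feasibility. -/
abbrev Class : Type := ∀ m n : ℕ, Matrix (Fin m) (Fin n) ℝ → (Fin m → ℝ) → Prop

/-- The algorithm `α` decides linear feasibility for the instances in the class `C` in strongly
polynomial time: for some polynomial `p`, on every real instance in `C` it stops with the correct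
answer after at most `p (m + n)` elementary steps, never dividing by zero, and if the instance is
rational, of encoding length `L`, then all numbers computed are rational of encoding length at most
`p (L)`. -/
def DecidesOn (C : Class) (α : Alg) : Prop :=
  ∃ p : Polynomial ℕ, ∀ m n : ℕ, 1 ≤ m → 1 ≤ n →
    ∀ (A : Matrix (Fin m) (Fin n) ℝ) (b : Fin m → ℝ), C m n A b → ∃ ans nums steps,
      run ∅ (α m n) (p.eval (m + n)) [] (start A b) = some (ans, nums, steps) ∧
      (ans = true ↔ ∃ x : Fin n → ℝ, b ≤ A.mulVec x) ∧ steps ≤ p.eval (m + n) ∧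
      ∀ (A' : Matrix (Fin m) (Fin n) ℚ) (b' : Fin m → ℚ), (∀ i j, ((A' i j : ℚ) : ℝ) = A i j) →
        (∀ i, ((b' i : ℚ) : ℝ) = b i) →
        ∀ v ∈ nums, ∃ q : ℚ, (q : ℝ) = v ∧ bitLength q ≤ p.eval (inputLength A' b')

/-- Linear feasibility can be decided in strongly polynomial time on the class `C`. -/
def StronglyPoly (C : Class) : Prop :=
  ∃ α : Alg, PolyControl α ∧ OracleFree α ∧ DecidesOn C α

/-- The systems of polynomial multiplication: for a real polynomial `a`, the unknowns are the `n`
coefficients of a polynomial `q` of degree less than `n`, the `deg a + n` left-hand sides are the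
coefficients of `a q`, and the right-hand side is `1` for the coefficient of `t ^ k` and `0` for
the others. The matrix is a Toeplitz matrix. -/
def MultSystem : Class := fun m n A b =>
  ∃ (a : Polynomial ℝ) (k : ℕ), m = a.natDegree + n ∧ k < m ∧
    (∀ (r : Fin m) (j : Fin n), A r j = if (j : ℕ) ≤ r then a.coeff (r - j) else 0) ∧
    ∀ r : Fin m, b r = if (r : ℕ) = k then 1 else 0

/-- The systems with a Hankel matrix `h (r + j)` whose right-hand side is a unit vector. -/
def HankelSystem : Class := fun m n A b =>
  ∃ (h : ℕ → ℝ) (k : ℕ), k < m ∧ (∀ (r : Fin m) (j : Fin n), A r j = h (r + j)) ∧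
    ∀ r : Fin m, b r = if (r : ℕ) = k then 1 else 0

end Pool.Agent.U23.LR
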