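import Pool.Agent.U23.LR.Main

/-!
# The reductions to Toeplitz and Hankel systems
-/

set_option autoImplicit false

namespace Pool.Agent.U23.LR

open Finset
open Pool.Agent.H558R2 Pool.Agent.H622R3.SM Pool.Agent.NPC

theorem uPoly_tR {α : Type} [TEnc α] {U V : α → List Unit} (hU : Poly U) (hV : Poly V) :
    Poly (fun a => List.range (tR (U a).length (V a).length)) := by
  have h1 := UPoly.length hU
  have h2 := UPoly.length hV
  unfold tR
  exact (((h1.add (UPoly.const 1)).mul ((((UPoly.const 2).mul (h2.add (UPoly.const 1)))).add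
    (UPoly.const 1))).add ((UPoly.const 2).mul (h2.add (UPoly.const 1)))).range

theorem uPoly_tN {α : Type} [TEnc α] {U V : α → List Unit} (hV : Poly V) :
    Poly (fun a => List.range (tN (U a).length (V a).length)) := by
  have h2 := UPoly.length hV
  unfold tN
  exact ((UPoly.const 2).mul (h2.add (UPoly.const 1))).range

theorem poly_areg {α : Type} [TEnc α] {m n k : α → ℕ} (hm : Poly m) (hn : Poly n)
    (hk : Poly k) : Poly (fun a => areg (m a) (n a) (k a)) := by
  unfold areg
  fun_prop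

theorem poly_tsrc {α : Type} [TEnc α] {m n r j : α → ℕ} (hm : Poly m) (hn : Poly n)
    (hr : Poly r) (hj : Poly j) : Poly (fun a => tsrc (m a) (n a) (r a) (j a)) := by
  unfold tsrc
  have h1 := poly_areg hm hn (k := fun a => r a - j a) (by fun_prop)
  fun_prop

theorem poly_trsrc {α : Type} [TEnc α] {m n r : α → ℕ} (hm : Poly m) (hn : Poly n)
    (hr : Poly r) : Poly (fun a => trsrc (m a) (n a) (r a)) := by
  unfold trsrc tk
  fun_prop

/-- the polynomial which bounds the size -/
noncomputable def tq : Polynomial ℕ := (Polynomial.X + 1) * (2 * (Polynomial.X + 1) + 1) +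
  2 * (Polynomial.X + 1)

theorem tq_eval (x : ℕ) : tq.eval x = (x + 1) * (2 * (x + 1) + 1) + 2 * (x + 1) := by
  unfold tq
  simp

/-- the reduction to Toeplitz systems -/
noncomputable def tRed : RedData where
  R := tR
  N := tN
  src := tsrc
  rsrc := trsrc
  q := tq
  hR m n := by
    unfold tR
    nlinarith [Nat.zero_le (m * n)]
  hC m n := by unfold tN; omega
  qR m n := by
    rw [tq_eval]
    unfold tR
    have h1 : (m + 1) * (2 * (n + 1) + 1) ≤ (m + n + 1) * (2 * (m + n + 1) + 1) :=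
      Nat.mul_le_mul (by omega) (by omega)
    omega
  qN m n := by
    rw [tq_eval]
    unfold tN
    omega
  ok m n r j _ _ := tsrc_sym m n r j
  rok m n r _ := trsrc_sym m n r
  pR := uPoly_tR (by fun_prop) (by fun_prop)
  pN := uPoly_tN (by fun_prop)
  pS := poly_tsrc (by fun_prop) (by fun_prop) (by fun_prop) (by fun_prop)
  pT := poly_trsrc (by fun_prop) (by fun_prop) (by fun_prop)

/-- the reduction to Hankel systems -/
noncomputable def hRed : RedData where
  R := tR
  N := tN
  src := hsrc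
  rsrc := trsrc
  q := tq
  hR := tRed.hR
  hC := tRed.hC
  qR := tRed.qR
  qN := tRed.qN
  ok m n r j _ _ := tsrc_sym m n r _
  rok m n r _ := trsrc_sym m n r
  pR := tRed.pR
  pN := tRed.pN
  pS := by
    unfold hsrc tN
    exact poly_tsrc (by fun_prop) (by fun_prop) (by fun_prop) (by fun_prop)
  pT := tRed.pT

variable {m n : ℕ} (A : Matrix (Fin m) (Fin n) ℝ) (b : Fin m → ℝ)

theorem tRed_row (x : ℕ → ℝ) (r : Fin (tR m n)) :
    (tRed.nA A b).mulVec (fun j : Fin (tN m n) => x j) r =
      lhs (m + 1) (n + 1) (DD A b) (big A b) x r := by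
  unfold lhs Matrix.mulVec dotProduct
  rw [Finset.sum_range]
  refine sum_congr rfl fun j _ => ?_
  show sval A b (tsrc m n r j) * x j = _
  rw [sval_tsrc]

theorem tRed_iff : (∃ x : Fin (tN m n) → ℝ, tRed.nb A b ≤ (tRed.nA A b).mulVec x) ↔
    ∃ x : Fin n → ℝ, b ≤ A.mulVec x := by
  rw [← toep_iff]
  constructor
  · rintro ⟨x, hx⟩
    refine ⟨fun j => if h : j < tN m n then x ⟨j, h⟩ else 0, fun r hr => ?_⟩
    have h1 := hx ⟨r, hr⟩
    have h2 := tRed_row A b (fun j => if h : j < tN m n then x ⟨j, h⟩ else 0) ⟨r, hr⟩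
    have h3 : (fun j : Fin (tN m n) => (fun j => if h : j < tN m n then x ⟨j, h⟩ else 0) (j : ℕ)) =
        x := by
      funext j
      exact dif_pos j.2
    rw [h3] at h2
    rw [← h2]
    refine le_trans (le_of_eq ?_) h1
    exact (sval_trsrc A b r).symm
  · rintro ⟨x, hx⟩
    refine ⟨fun j => x j, fun r => ?_⟩
    rw [tRed_row A b x r]
    refine le_trans (le_of_eq ?_) (hx r r.2)
    exact sval_trsrc A b r

theorem tRed_mult : MultSystem _ _ (tRed.nA A b) (tRed.nb A b) := by
  refine ⟨tpoly A b, tk m n, ?_, tk_lt m n, fun r j => ?_, fun r => sval_trsrc A b r⟩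
  · rw [tpoly_natDegree]
    rfl
  · show sval A b (tsrc m n r j) = _
    rw [sval_tsrc, tpoly_coeff]

theorem hRed_iff : (∃ x : Fin (tN m n) → ℝ, hRed.nb A b ≤ (hRed.nA A b).mulVec x) ↔
    ∃ x : Fin n → ℝ, b ≤ A.mulVec x := by
  rw [← tRed_iff]
  have key : ∀ (x : Fin (tN m n) → ℝ) (r : Fin (tR m n)),
      (hRed.nA A b).mulVec x r = (tRed.nA A b).mulVec (fun j => x (Fin.rev j)) r := by
    intro x r
    unfold Matrix.mulVec dotProduct
    rw [← Equiv.sum_comp Fin.revPerm]
    refine sum_congr rfl fun (j : Fin (tN m n)) _ => ?_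
    show sval A b (tsrc m n r (tN m n - 1 - (Fin.rev j : Fin (tN m n)))) * x (Fin.rev j) =
      sval A b (tsrc m n r j) * x (Fin.rev j)
    have h1 : tN m n - 1 - ((Fin.rev j : Fin (tN m n)) : ℕ) = j := by
      rw [Fin.val_rev]
      have := j.2
      omega
    rw [h1]
  constructor
  · rintro ⟨x, hx⟩
    exact ⟨fun j => x (Fin.rev j), fun r => (hx r).trans (le_of_eq (key x r))⟩
  · rintro ⟨x, hx⟩
    refine ⟨fun j => x (Fin.rev j), fun r => (hx r).trans (le_of_eq ?_)⟩
    refine Eq.trans ?_ (key (fun j => x (Fin.rev j)) r).symm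
    exact congrArg (fun y : Fin (tN m n) → ℝ => (tRed.nA A b).mulVec y r)
      (funext fun j => congrArg x (Fin.rev_rev j).symm)

theorem hRed_hankel : HankelSystem _ _ (hRed.nA A b) (hRed.nb A b) := by
  refine ⟨fun s => if tN m n - 1 ≤ s then (tpoly A b).coeff (s - (tN m n - 1)) else 0, tk m n,
    tk_lt m n, fun r j => ?_, fun r => sval_trsrc A b r⟩
  show sval A b (tsrc m n r (tN m n - 1 - j)) = _
  rw [sval_tsrc, ← tpoly_coeff]
  have hj : (j : ℕ) < tN m n := j.2
  beta_reduce
  by_cases h : tN m n - 1 - (j : ℕ) ≤ r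
  · rw [if_pos h, if_pos (by omega), show (r : ℕ) - (tN m n - 1 - j) = r + j - (tN m n - 1) by omega]
  · rw [if_neg h, if_neg (by omega)]

/-- **Toeplitz systems are as hard as all systems.** -/
theorem to_mult (h : StronglyPoly MultSystem) : StronglyPoly fun _ _ _ _ => True :=
  tRed.reduce (fun _ _ A b _ _ _ => ⟨tRed_mult A b, tRed_iff A b⟩) h

/-- **Hankel systems are as hard as all systems.** -/
theorem to_hankel (h : StronglyPoly HankelSystem) : StronglyPoly fun _ _ _ _ => True :=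
  hRed.reduce (fun _ _ A b _ _ _ => ⟨hRed_hankel A b, hRed_iff A b⟩) h

theorem StronglyPoly.mono {C C' : Class} (h : StronglyPoly C)
    (hC : ∀ m n A b, C' m n A b → C m n A b) : StronglyPoly C' := by
  obtain ⟨α, h1, h2, p, h3⟩ := h
  exact ⟨α, h1, h2, p, fun m n hm hn A b hb => h3 m n hm hn A b (hC _ _ _ _ hb)⟩

theorem big_eq : big A b = 3 + ∑ i, ∑ j, A i j ^ 2 + ∑ i, b i ^ 2 := by
  unfold big
  have h1 : ((prs m n).map (fun v => start A b [0, v.1, v.2] * start A b [0, v.1, v.2])).sum =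
      ∑ i, ∑ j, A i j ^ 2 := by
    have hnd : (prs m n).Nodup := List.Nodup.product List.nodup_range List.nodup_range
    rw [← List.sum_toFinset _ hnd]
    have h2 : (prs m n).toFinset = range m ×ˢ range n := by
      ext v
      rw [List.mem_toFinset, mem_prs, mem_product, mem_range, mem_range]
    rw [h2, sum_product, Finset.sum_range]
    refine sum_congr rfl fun i _ => ?_
    rw [Finset.sum_range]
    refine sum_congr rfl fun j _ => ?_
    have h3 : start A b [0, (i : ℕ), (j : ℕ)] = A i j := dif_pos ⟨i.2, j.2⟩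
    rw [h3, sq]
  have h4 : ((List.range m).map (fun i => start A b [1, i] * start A b [1, i])).sum =
      ∑ i, b i ^ 2 := by
    rw [← List.sum_toFinset _ List.nodup_range]
    have h2 : (List.range m).toFinset = range m := by
      ext v
      rw [List.mem_toFinset, List.mem_range, mem_range]
    rw [h2, Finset.sum_range]
    refine sum_congr rfl fun i _ => ?_
    have h3 : start A b [1, (i : ℕ)] = b i := dif_pos i.2
    rw [h3, sq]
  rw [h1, h4]

theorem sval_cases {x : Reg} (h : Sym m n x) : sval A b x = 0 ∨ sval A b x = 1 ∨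
    sval A b x = -1 ∨ sval A b x = big A b ∨ (∃ i j, sval A b x = A i j ∨ sval A b x = -A i j) ∨
    ∃ i, sval A b x = b i ∨ sval A b x = -b i := by
  cases h with
  | zero => exact Or.inl rfl
  | one => exact Or.inr (Or.inl rfl)
  | neg => exact Or.inr (Or.inr (Or.inl rfl))
  | big => exact Or.inr (Or.inr (Or.inr (Or.inl rfl)))
  | a i j hi hj =>
    refine Or.inr (Or.inr (Or.inr (Or.inr (Or.inl ⟨⟨i, hi⟩, ⟨j, hj⟩, Or.inl ?_⟩))))
    exact dif_pos ⟨hi, hj⟩
  | na i j hi hj =>
    refine Or.inr (Or.inr (Or.inr (Or.inr (Or.inl ⟨⟨i, hi⟩, ⟨j, hj⟩, Or.inr ?_⟩))))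
    exact congrArg Neg.neg (dif_pos ⟨hi, hj⟩)
  | b i hi =>
    refine Or.inr (Or.inr (Or.inr (Or.inr (Or.inr ⟨⟨i, hi⟩, Or.inl ?_⟩))))
    exact dif_pos hi
  | nb i hi =>
    refine Or.inr (Or.inr (Or.inr (Or.inr (Or.inr ⟨⟨i, hi⟩, Or.inr ?_⟩))))
    exact congrArg Neg.neg (dif_pos hi)

theorem coeff_cases (k : ℕ) : (tpoly A b).coeff k = 0 ∨ (tpoly A b).coeff k = 1 ∨
    (tpoly A b).coeff k = -1 ∨ (tpoly A b).coeff k = big A b ∨
    (∃ i j, (tpoly A b).coeff k = A i j ∨ (tpoly A b).coeff k = -A i j) ∨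
    ∃ i, (tpoly A b).coeff k = b i ∨ (tpoly A b).coeff k = -b i := by
  rw [tpoly_coeff]
  unfold cc
  split_ifs with h
  · rw [← sval_areg]
    exact sval_cases A b (areg_sym m n k)
  · exact Or.inl rfl

end Pool.Agent.U23.LR
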