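import Pool.Agent.H622R3.SM.Model

/-!
# Heights of rational numbers (after `Pool/Agent/U17/PN/Len.lean`)
-/

set_option autoImplicit false

namespace Pool.Agent.U23.LR

open Pool.Agent.H558R2 Pool.Agent.H622R3.SM

/-- height of a rational number -/
def hN (q : ℚ) : ℕ := q.num.natAbs + q.den

theorem hN_div (a b : ℤ) (hb : b ≠ 0) : hN ((a : ℚ) / b) ≤ a.natAbs + b.natAbs := by
  rw [← Rat.divInt_eq_div]
  unfold hN
  refine Nat.add_le_add ?_ ?_
  · by_cases ha : a = 0
    · subst ha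
      simp
    · exact Nat.le_of_dvd (Int.natAbs_pos.2 ha) (Int.natAbs_dvd_natAbs.2 (Rat.num_dvd a hb))
  · have h1 := Int.natAbs_dvd_natAbs.2 (Rat.den_dvd a b)
    simp only [Int.natAbs_natCast] at h1
    exact Nat.le_of_dvd (Int.natAbs_pos.2 hb) h1

theorem hN_add (p q : ℚ) : hN (p + q) ≤ hN p * hN q := by
  have hp : (p.den : ℚ) ≠ 0 := by exact_mod_cast p.den_ne_zero
  have hq : (q.den : ℚ) ≠ 0 := by exact_mod_cast q.den_ne_zero
  have h1 : p + q = ((p.num * q.den + q.num * p.den : ℤ) : ℚ) / ((p.den * q.den : ℤ) : ℚ) := by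
    push_cast
    have e1 : (p.num : ℚ) = p * p.den := (Rat.mul_den_eq_num p).symm
    have e2 : (q.num : ℚ) = q * q.den := (Rat.mul_den_eq_num q).symm
    rw [e1, e2]
    field_simp
  have h2 := hN_div (p.num * q.den + q.num * p.den) (p.den * q.den) (by
    exact_mod_cast Nat.mul_ne_zero p.den_ne_zero q.den_ne_zero)
  rw [← h1] at h2
  refine h2.trans ?_
  have h3 : (p.num * q.den + q.num * p.den).natAbs ≤
      p.num.natAbs * q.den + q.num.natAbs * p.den := by
    refine (Int.natAbs_add_le _ _).trans ?_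
    rw [Int.natAbs_mul, Int.natAbs_mul, Int.natAbs_natCast, Int.natAbs_natCast]
  have h4 : ((p.den : ℤ) * (q.den : ℤ)).natAbs = p.den * q.den := by
    rw [Int.natAbs_mul, Int.natAbs_natCast, Int.natAbs_natCast]
  rw [h4]
  unfold hN
  nlinarith [Nat.zero_le (p.num.natAbs * q.num.natAbs)]

theorem hN_mul (p q : ℚ) : hN (p * q) ≤ hN p * hN q := by
  have hp : (p.den : ℚ) ≠ 0 := by exact_mod_cast p.den_ne_zero
  have hq : (q.den : ℚ) ≠ 0 := by exact_mod_cast q.den_ne_zero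
  have h1 : p * q = ((p.num * q.num : ℤ) : ℚ) / ((p.den * q.den : ℤ) : ℚ) := by
    push_cast
    have e1 : (p.num : ℚ) = p * p.den := (Rat.mul_den_eq_num p).symm
    have e2 : (q.num : ℚ) = q * q.den := (Rat.mul_den_eq_num q).symm
    rw [e1, e2]
    field_simp
  have h2 := hN_div (p.num * q.num) (p.den * q.den) (by
    exact_mod_cast Nat.mul_ne_zero p.den_ne_zero q.den_ne_zero)
  rw [← h1] at h2
  refine h2.trans ?_
  rw [Int.natAbs_mul, Int.natAbs_mul, Int.natAbs_natCast, Int.natAbs_natCast]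
  unfold hN
  nlinarith [Nat.zero_le (p.num.natAbs * q.den), Nat.zero_le (q.num.natAbs * p.den)]

theorem hN_neg (p : ℚ) : hN (-p) = hN p := by
  unfold hN
  simp

theorem hN_le (q : ℚ) : hN q ≤ 2 ^ bitLength q := by
  unfold hN bitLength
  have h1 : q.num.natAbs < 2 ^ q.num.natAbs.size := Nat.lt_size_self _
  have h2 : q.den < 2 ^ q.den.size := Nat.lt_size_self _
  have h3 : 2 ^ q.num.natAbs.size ≤ 2 ^ (q.num.natAbs.size + q.den.size) :=
    Nat.pow_le_pow_right (by norm_num) (by omega)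
  have h4 : 2 ^ q.den.size ≤ 2 ^ (q.num.natAbs.size + q.den.size) :=
    Nat.pow_le_pow_right (by norm_num) (by omega)
  have h5 : 2 ^ (1 + q.num.natAbs.size + q.den.size) =
      2 * 2 ^ (q.num.natAbs.size + q.den.size) := by
    rw [add_assoc, pow_add, pow_one]
  omega

theorem bitLength_le {q : ℚ} {E : ℕ} (h : hN q ≤ 2 ^ E) : bitLength q ≤ 2 * E + 3 := by
  unfold hN at h
  unfold bitLength
  have h0 : 2 ^ (E + 1) = 2 * 2 ^ E := by rw [pow_succ]; ring
  have hpos : 0 < 2 ^ E := by positivity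
  have h1 : q.num.natAbs.size ≤ E + 1 := Nat.size_le.2 (by omega)
  have h2 : q.den.size ≤ E + 1 := Nat.size_le.2 (by omega)
  omega

/-- rational numbers of height at most `2 ^ E` -/
def RP (E : ℕ) (x : ℝ) : Prop := ∃ q : ℚ, (q : ℝ) = x ∧ hN q ≤ 2 ^ E

theorem RP.mono {E E' : ℕ} {x : ℝ} (h : RP E x) (hE : E ≤ E') : RP E' x := by
  obtain ⟨q, h1, h2⟩ := h
  exact ⟨q, h1, h2.trans (Nat.pow_le_pow_right (by norm_num) hE)⟩

theorem RP.add {E E' : ℕ} {x y : ℝ} (hx : RP E x) (hy : RP E' y) : RP (E + E') (x + y) := by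
  obtain ⟨q, h1, h2⟩ := hx
  obtain ⟨q', h3, h4⟩ := hy
  refine ⟨q + q', by rw [← h1, ← h3]; push_cast; rfl, (hN_add q q').trans ?_⟩
  rw [pow_add]
  exact Nat.mul_le_mul h2 h4

theorem RP.mul {E E' : ℕ} {x y : ℝ} (hx : RP E x) (hy : RP E' y) : RP (E + E') (x * y) := by
  obtain ⟨q, h1, h2⟩ := hx
  obtain ⟨q', h3, h4⟩ := hy
  refine ⟨q * q', by rw [← h1, ← h3]; push_cast; rfl, (hN_mul q q').trans ?_⟩
  rw [pow_add]
  exact Nat.mul_le_mul h2 h4

theorem RP.neg {E : ℕ} {x : ℝ} (hx : RP E x) : RP E (-x) := by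
  obtain ⟨q, h1, h2⟩ := hx
  exact ⟨-q, by rw [← h1]; push_cast; rfl, by rw [hN_neg]; exact h2⟩

theorem RP.sub {E E' : ℕ} {x y : ℝ} (hx : RP E x) (hy : RP E' y) : RP (E + E') (x - y) := by
  rw [sub_eq_add_neg]
  exact hx.add hy.neg

theorem RP.zero : RP 0 0 := ⟨0, by simp, by simp [hN]⟩

theorem RP.one : RP 1 1 := ⟨1, by simp, by simp [hN]⟩

theorem RP.sum {E : ℕ} (L : List ℝ) (h : ∀ x ∈ L, RP E x) : RP (L.length * E) L.sum := by
  induction L with
  | nil => simpa using RP.zero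
  | cons a L ih =>
    rw [List.sum_cons, List.length_cons]
    have h1 := (h a (List.mem_cons_self ..)).add (ih fun x hx => h x (List.mem_cons_of_mem _ hx))
    refine h1.mono ?_
    ring_nf
    omega

section

variable {m n : ℕ} (A : Matrix (Fin m) (Fin n) ℝ) (b : Fin m → ℝ)
  (A' : Matrix (Fin m) (Fin n) ℚ) (b' : Fin m → ℚ)

theorem le_len_A (i : Fin m) (j : Fin n) : bitLength (A' i j) ≤ inputLength A' b' := by
  unfold inputLength
  have h1 : bitLength (A' i j) ≤ ∑ j, bitLength (A' i j) :=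
    Finset.single_le_sum (f := fun j => bitLength (A' i j)) (fun _ _ => Nat.zero_le _)
      (Finset.mem_univ j)
  have h2 : ∑ j, bitLength (A' i j) ≤ ∑ i, ∑ j, bitLength (A' i j) :=
    Finset.single_le_sum (f := fun i => ∑ j, bitLength (A' i j)) (fun _ _ => Nat.zero_le _)
      (Finset.mem_univ i)
  omega

theorem le_len_b (i : Fin m) : bitLength (b' i) ≤ inputLength A' b' := by
  unfold inputLength
  have h1 : bitLength (b' i) ≤ ∑ i, bitLength (b' i) :=
    Finset.single_le_sum (f := fun i => bitLength (b' i)) (fun _ _ => Nat.zero_le _)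
      (Finset.mem_univ i)
  omega

theorem len_ge (hm : 1 ≤ m) (hn : 1 ≤ n) : m + n ≤ inputLength A' b' := by
  unfold inputLength
  have h0 : ∀ q : ℚ, 1 ≤ bitLength q := fun q => by unfold bitLength; omega
  have h1 : m * n ≤ ∑ i, ∑ j, bitLength (A' i j) := by
    calc m * n = ∑ _i : Fin m, ∑ _j : Fin n, 1 := by simp
      _ ≤ _ := Finset.sum_le_sum fun i _ => Finset.sum_le_sum fun j _ => h0 _
  have h2 : m ≤ ∑ i, bitLength (b' i) := by
    calc m = ∑ _i : Fin m, 1 := by simp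
      _ ≤ _ := Finset.sum_le_sum fun i _ => h0 _
  nlinarith

variable {A b A' b'}

theorem start_RP (hA : ∀ i j, ((A' i j : ℚ) : ℝ) = A i j) (hb : ∀ i, ((b' i : ℚ) : ℝ) = b i) :
    (∀ i j, RP (inputLength A' b' + 1) (start A b [0, i, j])) ∧
      (∀ i, RP (inputLength A' b' + 1) (start A b [1, i])) := by
  constructor
  · intro i j
    show RP _ (if h : i < m ∧ j < n then A ⟨i, h.1⟩ ⟨j, h.2⟩ else 0)
    split_ifs with h
    · exact ⟨A' ⟨i, h.1⟩ ⟨j, h.2⟩, hA _ _, (hN_le _).trans (Nat.pow_le_pow_right (by norm_num)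
        ((le_len_A A' b' _ _).trans (Nat.le_succ _)))⟩
    · exact RP.zero.mono (Nat.zero_le _)
  · intro i
    show RP _ (if h : i < m then b ⟨i, h⟩ else 0)
    split_ifs with h
    · exact ⟨b' ⟨i, h⟩, hb _, (hN_le _).trans (Nat.pow_le_pow_right (by norm_num)
        ((le_len_b A' b' _).trans (Nat.le_succ _)))⟩
    · exact RP.zero.mono (Nat.zero_le _)

end

end Pool.Agent.U23.LR
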