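import Pool.Agent.U23.LR.Prog
import Pool.Agent.U23.LR.Defs
import Pool.Agent.H622R3.SM.T_COMP
import Pool.Agent.H622R3.SM.T_PM
import Pool.Agent.H671R2.PolyAuto

/-!
# Reductions which copy entries: strongly polynomial reductions
-/

set_option autoImplicit false

namespace Pool.Agent.U23.LR

open Pool.Agent.H558R2 Pool.Agent.H622R3.SM Pool.Agent.NPC
open Pool.Agent.H622R3.SM.TPM (pInstr)

attribute [local fun_prop] pInstr

/-- The data of a reduction: the size of the new system and the registers from which its entries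
are copied, all computed in polynomial time. -/
structure RedData where
  /-- the number of rows -/
  R : ℕ → ℕ → ℕ
  /-- the number of columns -/
  N : ℕ → ℕ → ℕ
  /-- the sources of the entries of the matrix -/
  src : ℕ → ℕ → ℕ → ℕ → Reg
  /-- the sources of the right-hand sides -/
  rsrc : ℕ → ℕ → ℕ → Reg
  /-- a bound for the size -/
  q : Polynomial ℕ
  hR : ∀ m n, m ≤ R m n
  hC : ∀ m n, n ≤ N m n
  qR : ∀ m n, R m n ≤ q.eval (m + n)
  qN : ∀ m n, N m n ≤ q.eval (m + n)
  ok : ∀ m n r j, r < R m n → j < N m n → Sym m n (src m n r j)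
  rok : ∀ m n r, r < R m n → Sym m n (rsrc m n r)
  pR : Poly (fun p : List Unit × List Unit => List.range (R p.1.length p.2.length))
  pN : Poly (fun p : List Unit × List Unit => List.range (N p.1.length p.2.length))
  pS : Poly (fun p : (ℕ × ℕ) × (ℕ × ℕ) => src p.1.1 p.1.2 p.2.1 p.2.2)
  pT : Poly (fun p : (ℕ × ℕ) × ℕ => rsrc p.1.1 p.1.2 p.2)

namespace RedData

variable (d : RedData)

/-- the program of the reduction -/
def pg (m n : ℕ) : List Instr := prog m n (d.R m n) (d.N m n) (d.src m n) (d.rsrc m n)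

/-- the matrix of the new system -/
noncomputable def nA {m n : ℕ} (A : Matrix (Fin m) (Fin n) ℝ) (b : Fin m → ℝ) :
    Matrix (Fin (d.R m n)) (Fin (d.N m n)) ℝ := fun i j => sval A b (d.src m n i j)

/-- the right-hand side of the new system -/
noncomputable def nb {m n : ℕ} (A : Matrix (Fin m) (Fin n) ℝ) (b : Fin m → ℝ) :
    Fin (d.R m n) → ℝ := fun i => sval A b (d.rsrc m n i)

theorem fin_pg {m n : ℕ} (A : Matrix (Fin m) (Fin n) ℝ) (b : Fin m → ℝ) :
    fin (d.pg m n) (start A b) = start (d.nA A b) (d.nb A b) :=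
  fin_prog A b (d.ok m n) (d.rok m n) (d.hR m n) (d.hC m n)

variable {α : Type} [TEnc α]

theorem poly_prs {U V : α → List Unit} (hU : Poly U) (hV : Poly V) :
    Poly (fun a => prs (U a).length (V a).length) := by
  unfold prs
  exact R671.poly_product (UPoly.length hU).range (UPoly.length hV).range

theorem poly_Q1 {U V : α → List Unit} (hU : Poly U) (hV : Poly V) :
    Poly (fun a => Q1 (U a).length (V a).length) := by
  have h1 := poly_prs hU hV
  have h2 : Poly (fun a => List.range (U a).length) := (UPoly.length hU).range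
  unfold Q1
  refine Poly.append (NPC.Poly.map h1 ?_) (Poly.append (NPC.Poly.map h1 ?_)
    (Poly.append (NPC.Poly.map h1 ?_) (Poly.append (NPC.Poly.map h2 ?_)
      (Poly.append (NPC.Poly.map h2 ?_) (Poly.append (NPC.Poly.map h2 ?_)
        (NPC.Poly.const _))))))
  all_goals fun_prop

theorem poly_Q2 {U V : α → List Unit} (hU : Poly U) (hV : Poly V) :
    Poly (fun a => Q2 (U a).length (V a).length) := by
  have h1 := poly_prs hU hV
  have h2 : Poly (fun a => List.range (U a).length) := (UPoly.length hU).range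
  unfold Q2 sreg
  refine NPC.Poly.map (Poly.append (NPC.Poly.const _) (Poly.append (NPC.Poly.map h1 ?_)
    (NPC.Poly.map h2 ?_))) ?_
  all_goals fun_prop

theorem poly_Q4 {U V : α → List Unit} (hU : Poly U) (hV : Poly V) :
    Poly (fun a => Q4 (U a).length (V a).length) := by
  have h1 := poly_prs hU hV
  have h2 : Poly (fun a => List.range (U a).length) := (UPoly.length hU).range
  unfold Q4 aux
  refine NPC.Poly.map (Poly.append (NPC.Poly.map h1 ?_) (Poly.append (NPC.Poly.map h1 ?_)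
    (Poly.append (NPC.Poly.map h1 ?_) (Poly.append (NPC.Poly.map h2 ?_)
      (Poly.append (NPC.Poly.map h2 ?_) (Poly.append (NPC.Poly.map h2 ?_)
        (NPC.Poly.const _))))))) ?_
  all_goals fun_prop

theorem poly_range {f : ℕ → ℕ → ℕ}
    (h : Poly (fun p : List Unit × List Unit => List.range (f p.1.length p.2.length)))
    {U V : α → List Unit} (hU : Poly U) (hV : Poly V) :
    Poly (fun a => List.range (f (U a).length (V a).length)) :=
  h.comp (f := fun a => (U a, V a)) (Poly.pair hU hV)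

theorem poly_Q3 {U V : α → List Unit} (hU : Poly U) (hV : Poly V) :
    Poly (fun a => Q3 (d.R (U a).length (V a).length) (d.N (U a).length (V a).length)
      (d.src (U a).length (V a).length) (d.rsrc (U a).length (V a).length)) := by
  have h1 := poly_range d.pR hU hV
  have h2 := poly_range d.pN hU hV
  unfold Q3 prs
  refine Poly.append (NPC.Poly.map (R671.poly_product h1 h2) ?_) (NPC.Poly.map h1 ?_)
  · have h3 : Poly (fun p : α × (ℕ × ℕ) =>
        d.src (U p.1).length (V p.1).length p.2.1 p.2.2) :=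
      d.pS.comp (f := fun p : α × (ℕ × ℕ) => (((U p.1).length, (V p.1).length), p.2))
        (by fun_prop)
    exact pInstr _ (by fun_prop) h3 (by fun_prop)
  · have h3 : Poly (fun p : α × ℕ => d.rsrc (U p.1).length (V p.1).length p.2) :=
      d.pT.comp (f := fun p : α × ℕ => (((U p.1).length, (V p.1).length), p.2))
        (by fun_prop)
    exact pInstr _ (by fun_prop) h3 (by fun_prop)

theorem poly_pg {U V : α → List Unit} (hU : Poly U) (hV : Poly V) :
    Poly (fun a => d.pg (U a).length (V a).length) :=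
  Poly.append (poly_Q1 hU hV) (Poly.append (poly_Q2 hU hV) (Poly.append (d.poly_Q3 hU hV)
    (poly_Q4 hU hV)))

/-- the reduction applied to an algorithm -/
def redAlg (α : Alg) : Alg := fun m n h =>
  if h = [] then (d.pg m n ++ (α (d.R m n) (d.N m n) []).1, (α (d.R m n) (d.N m n) []).2)
  else α (d.R m n) (d.N m n) h

theorem redAlg_eq (α : Alg) (m n : ℕ) :
    d.redAlg α m n = pre (d.pg m n) (α (d.R m n) (d.N m n)) := rfl

theorem redAlg_free {α : Alg} (h : OracleFree α) : OracleFree (d.redAlg α) := by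
  intro m n h' w
  unfold redAlg
  split_ifs
  · exact h _ _ _ _
  · exact h _ _ _ _

theorem redAlg_control {β : Alg} (h : PolyControl β) : PolyControl (d.redAlg β) := by
  have h1 : Poly (fun p : HistIn => β p.1.1.length p.1.2.length p.2) := t_COMP2 _ _ _ h
  refine t_COMP _ _ _ ?_
  have hU : Poly (fun p : HistIn => p.1.1) := by fun_prop
  have hV : Poly (fun p : HistIn => p.1.2) := by fun_prop
  have hr : Poly (fun p : HistIn =>
      (List.range (d.R p.1.1.length p.1.2.length)).map (fun _ => ())) :=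
    NPC.Poly.map (poly_range d.pR hU hV) (NPC.Poly.const _)
  have hc : Poly (fun p : HistIn =>
      (List.range (d.N p.1.1.length p.1.2.length)).map (fun _ => ())) :=
    NPC.Poly.map (poly_range d.pN hU hV) (NPC.Poly.const _)
  have h2 : Poly (fun p : HistIn => β (d.R p.1.1.length p.1.2.length)
      (d.N p.1.1.length p.1.2.length) p.2) := by
    have h3 : Poly (fun p : HistIn =>
      ((((List.range (d.R p.1.1.length p.1.2.length)).map (fun _ => ()),
      (List.range (d.N p.1.1.length p.1.2.length)).map (fun _ => ())), p.2) : HistIn)) :=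
      Poly.pair (Poly.pair hr hc) (by fun_prop)
    refine (h1.comp h3).congr fun p => ?_
    simp only [List.length_map, List.length_range]
  have h2' : Poly (fun p : HistIn => β (d.R p.1.1.length p.1.2.length)
      (d.N p.1.1.length p.1.2.length) []) := by
    have h3 : Poly (fun p : HistIn =>
      ((((List.range (d.R p.1.1.length p.1.2.length)).map (fun _ => ()),
      (List.range (d.N p.1.1.length p.1.2.length)).map (fun _ => ())), []) : HistIn)) :=
      Poly.pair (Poly.pair hr hc) (NPC.Poly.const _)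
    refine (h1.comp h3).congr fun p => ?_
    simp only [List.length_map, List.length_range]
  have h4 : Poly (fun p : HistIn => decide (p.2 = [])) := by fun_prop
  unfold redAlg
  refine Poly.ite h4 (Poly.pair (Poly.append (d.poly_pg hU hV) (Poly.fst h2'))
    (Poly.snd h2')) h2

/-! ### Lengths -/

/-- the exponent of the bound for the heights -/
def EE (m n L : ℕ) : ℕ := 2 * (L + 1) * (m * n + m + 4)

variable {m n : ℕ} {A : Matrix (Fin m) (Fin n) ℝ} {b : Fin m → ℝ}
  {A' : Matrix (Fin m) (Fin n) ℚ} {b' : Fin m → ℚ}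

theorem sreg_RP (hA : ∀ i j, ((A' i j : ℚ) : ℝ) = A i j) (hb : ∀ i, ((b' i : ℚ) : ℝ) = b i)
    {s : Reg} (hs : s ∈ sreg m n) : RP (2 * (inputLength A' b' + 1)) (s1 A b s) := by
  obtain ⟨g0, g1⟩ := start_RP hA hb
  unfold sreg at hs
  simp only [List.mem_append, List.mem_map, Prod.exists, mem_prs, List.mem_range] at hs
  rcases hs with hs | ⟨i, j, ⟨hi, hj⟩, rfl⟩ | ⟨i, hi, rfl⟩
  · have : s = [2] := by simpa using hs
    rw [this, s1_2]
    exact RP.one.mono (by omega)
  · rw [s1_sq A b hi hj]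
    exact ((g0 _ _).mul (g0 _ _)).mono (by omega)
  · rw [s1_sqb A b hi]
    exact ((g1 _).mul (g1 _)).mono (by omega)

theorem length_sreg : (sreg m n).length = m * n + m + 3 := by
  unfold sreg
  simp only [List.length_append, List.length_map, List.length_range, length_prs,
    List.length_cons, List.length_nil]
  omega

theorem part_RP (hA : ∀ i j, ((A' i j : ℚ) : ℝ) = A i j) (hb : ∀ i, ((b' i : ℚ) : ℝ) = b i)
    {L' L'' : List Reg} (h : sreg m n = L' ++ L'') :
    RP (EE m n (inputLength A' b')) (L'.map (s1 A b)).sum := by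
  have h3 : ∀ x ∈ L'.map (s1 A b), RP (2 * (inputLength A' b' + 1)) x := by
    intro x hx
    rw [List.mem_map] at hx
    obtain ⟨s, hs, rfl⟩ := hx
    exact sreg_RP hA hb (by rw [h]; exact List.mem_append_left _ hs)
  refine (RP.sum _ h3).mono ?_
  have h4 := congrArg List.length h
  rw [length_sreg, List.length_append] at h4
  rw [List.length_map]
  unfold EE
  calc L'.length * (2 * (inputLength A' b' + 1)) ≤
      (m * n + m + 4) * (2 * (inputLength A' b' + 1)) := Nat.mul_le_mul_right _ (by omega)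
    _ = _ := by ring

theorem le_EE (m n L : ℕ) : L + 1 ≤ EE m n L ∧ 2 * (L + 1) ≤ EE m n L := by
  unfold EE
  have : 2 * (L + 1) ≤ 2 * (L + 1) * (m * n + m + 4) := Nat.le_mul_of_pos_right _ (by omega)
  omega

theorem sym_RP (hA : ∀ i j, ((A' i j : ℚ) : ℝ) = A i j) (hb : ∀ i, ((b' i : ℚ) : ℝ) = b i)
    {x : Reg} (hx : Sym m n x) : RP (EE m n (inputLength A' b')) (sval A b x) := by
  obtain ⟨g0, g1⟩ := start_RP hA hb
  have hE := le_EE m n (inputLength A' b')
  cases hx with
  | zero => exact RP.zero.mono (Nat.zero_le _)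
  | one => exact RP.one.mono (by omega)
  | neg => exact RP.one.neg.mono (by omega)
  | big =>
    have h1 := part_RP hA hb (L' := sreg m n) (L'' := []) (by simp)
    have h2 : s2 A b [13] = (( sreg m n).map (s1 A b)).sum := by
      unfold s2 Q2
      rw [fin_acc _ _ not_sreg, s1_13, zero_add]
    rw [← h2, s2_13] at h1
    exact h1
  | a i j hi hj => exact (g0 _ _).mono hE.1
  | na i j hi hj => exact (g0 _ _).neg.mono hE.1
  | b i hi => exact (g1 _).mono hE.1
  | nb i hi => exact (g1 _).neg.mono hE.1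

theorem outs_RP (hA : ∀ i j, ((A' i j : ℚ) : ℝ) = A i j) (hb : ∀ i, ((b' i : ℚ) : ℝ) = b i)
    (v : ℝ) (hv : v ∈ outs (d.pg m n) (start A b)) :
    RP (EE m n (inputLength A' b')) v := by
  set L := inputLength A' b' with hL
  obtain ⟨g0, g1⟩ := start_RP hA hb
  have hE := le_EE m n L
  unfold pg prog at hv
  rw [outs_append, outs_append, outs_append] at hv
  simp only [List.mem_append] at hv
  rcases hv with hv | hv | hv | hv
  · obtain ⟨I, hI, rfl⟩ := outs_par _ (par_Q1 m n) _ _ hv
    rcases mem_Q1.1 hI with ⟨i, j, -, -, rfl⟩ | ⟨i, j, -, -, rfl⟩ | ⟨i, j, -, -, rfl⟩ |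
      ⟨i, -, rfl⟩ | ⟨i, -, rfl⟩ | ⟨i, -, rfl⟩ | rfl
    · exact ((g0 i j).add RP.zero).mono hE.1
    · exact (RP.zero.sub (g0 i j)).mono (by omega)
    · exact ((g0 i j).mul (g0 i j)).mono (by omega)
    · exact ((g1 i).add RP.zero).mono hE.1
    · exact (RP.zero.sub (g1 i)).mono (by omega)
    · exact ((g1 i).mul (g1 i)).mono (by omega)
    · exact (RP.zero.sub RP.one).mono (by omega)
  · change v ∈ outs (Q2 m n) (s1 A b) at hv
    obtain ⟨L', L'', h2, rfl⟩ := outs_acc _ _ not_sreg _ _ hv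
    rw [s1_13, zero_add]
    exact part_RP hA hb h2
  · change v ∈ outs (Q3 _ _ _ _) (s2 A b) at hv
    obtain ⟨I, hI, rfl⟩ := outs_par _ (par_Q3 (d.ok m n) (d.rok m n)) _ _ hv
    rcases mem_Q3.1 hI with ⟨r, j, hr, hj, rfl⟩ | ⟨r, hr, rfl⟩
    · show RP _ (s2 A b (d.src m n r j) + s2 A b [9])
      rw [s2_9, add_zero, s2_sym A b (d.ok m n r j hr hj)]
      exact sym_RP hA hb (d.ok m n r j hr hj)
    · show RP _ (s2 A b (d.rsrc m n r) + s2 A b [9])
      rw [s2_9, add_zero, s2_sym A b (d.rok m n r hr)]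
      exact sym_RP hA hb (d.rok m n r hr)
  · obtain ⟨I, hI, rfl⟩ := outs_par _ (par_Q4 m n) _ _ hv
    simp only [Q4, List.mem_map] at hI
    obtain ⟨s, hs, rfl⟩ := hI
    show RP _ (_ - _)
    rw [sub_self]
    exact RP.zero.mono (Nat.zero_le _)

/-! ### Bounds -/

/-- the polynomial of the reduction -/
noncomputable def QQ : Polynomial ℕ := 100 * (Polynomial.X + 1) ^ 4 * (d.q + 1) ^ 2

theorem QQ_eval (x : ℕ) : d.QQ.eval x = 100 * (x + 1) ^ 4 * (d.q.eval x + 1) ^ 2 := by
  unfold QQ
  simp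

theorem eval_mono (p : Polynomial ℕ) {m n : ℕ} (h : m ≤ n) : p.eval m ≤ p.eval n :=
  Pool.Agent.NPC.eval_mono p h

theorem size_le {x : ℕ} (hx : m + n ≤ x) : d.R m n + d.N m n ≤ d.QQ.eval x := by
  rw [QQ_eval]
  have h1 := (d.qR m n).trans (eval_mono d.q hx)
  have h2 := (d.qN m n).trans (eval_mono d.q hx)
  have h3 : 1 ≤ (x + 1) ^ 4 := Nat.one_le_pow _ _ (by omega)
  set y := d.q.eval x
  have h4 : 2 * y ≤ 100 * (y + 1) ^ 2 := by nlinarith
  calc d.R m n + d.N m n ≤ 2 * y := by omega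
    _ ≤ 100 * (y + 1) ^ 2 := h4
    _ = 100 * 1 * (y + 1) ^ 2 := by ring
    _ ≤ 100 * (x + 1) ^ 4 * (y + 1) ^ 2 := by gcongr

theorem length_pg : (d.pg m n).length =
    (3 * (m * n) + 3 * m + 1) + ((m * n + m + 3) + ((d.R m n * d.N m n + d.R m n) +
      (3 * (m * n) + 3 * m + 2))) := by
  unfold pg prog Q1 Q2 Q3 Q4 aux
  simp only [List.length_append, List.length_map, List.length_range, length_prs,
    List.length_cons, List.length_nil, length_sreg]
  ring

theorem prog_le {x : ℕ} (hx : m + n ≤ x) : (d.pg m n).length ≤ d.QQ.eval x := by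
  rw [QQ_eval, length_pg]
  have h1 := (d.qR m n).trans (eval_mono d.q hx)
  have h2 := (d.qN m n).trans (eval_mono d.q hx)
  set y := d.q.eval x
  have h3 : m * n ≤ x * x := Nat.mul_le_mul (by omega) (by omega)
  have h4 : d.R m n * d.N m n ≤ y * y := Nat.mul_le_mul h1 h2
  have h5 : (x + 1) ^ 2 ≤ (x + 1) ^ 4 := Nat.pow_le_pow_right (by omega) (by omega)
  have h6 : 7 * (x * x) + 7 * x + 6 + (y * y + y) ≤ 100 * (x + 1) ^ 2 * (y + 1) ^ 2 := by
    nlinarith [Nat.zero_le (x * y), Nat.zero_le (x * x * y), Nat.zero_le (x * x * (y * y)),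
      Nat.zero_le (x * (y * y))]
  calc _ ≤ 7 * (x * x) + 7 * x + 6 + (y * y + y) := by omega
    _ ≤ 100 * (x + 1) ^ 2 * (y + 1) ^ 2 := h6
    _ ≤ 100 * (x + 1) ^ 4 * (y + 1) ^ 2 := by gcongr

theorem EE_le {x : ℕ} (hx : m + n ≤ x) : 2 * EE m n x + 3 ≤ 19 * (x + 1) ^ 3 := by
  unfold EE
  have h3 : m * n ≤ x * x := Nat.mul_le_mul (by omega) (by omega)
  have h4 : m * n + m + 4 ≤ 4 * (x + 1) ^ 2 := by nlinarith
  have h5 : 2 * (x + 1) * (m * n + m + 4) ≤ 2 * (x + 1) * (4 * (x + 1) ^ 2) := by gcongr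
  have h6 : 2 * (x + 1) * (4 * (x + 1) ^ 2) = 8 * (x + 1) ^ 3 := by ring
  have h7 : 1 ≤ (x + 1) ^ 3 := Nat.one_le_pow _ _ (by omega)
  omega

theorem EE_le_QQ {x : ℕ} (hx : m + n ≤ x) : 2 * EE m n x + 3 ≤ d.QQ.eval x := by
  refine (EE_le hx).trans ?_
  rw [QQ_eval]
  have h5 : (x + 1) ^ 3 ≤ (x + 1) ^ 4 := Nat.pow_le_pow_right (by omega) (by omega)
  have h6 : 1 ≤ (d.q.eval x + 1) ^ 2 := Nat.one_le_pow _ _ (by omega)
  calc 19 * (x + 1) ^ 3 ≤ 100 * (x + 1) ^ 4 * 1 := by omega
    _ ≤ _ := by gcongr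

/-- **Strongly polynomial reductions.** -/
theorem reduce {C C' : Class}
    (hC : ∀ m n (A : Matrix (Fin m) (Fin n) ℝ) (b : Fin m → ℝ), 1 ≤ m → 1 ≤ n → C m n A b →
      C' _ _ (d.nA A b) (d.nb A b) ∧
        ((∃ x : Fin (d.N m n) → ℝ, d.nb A b ≤ (d.nA A b).mulVec x) ↔
          ∃ x : Fin n → ℝ, b ≤ A.mulVec x))
    (h : StronglyPoly C') : StronglyPoly C := by
  obtain ⟨α, h1, h2, p, h3⟩ := h
  refine ⟨d.redAlg α, d.redAlg_control h1, d.redAlg_free h2, p.comp d.QQ + d.QQ, ?_⟩
  intro m n hm hn A b hCA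
  obtain ⟨hC1, hC2⟩ := hC m n A b hm hn hCA
  obtain ⟨ans, nums, steps, hrun, hans, hsteps, hlen⟩ := h3 _ _ (hm.trans (d.hR m n))
    (hn.trans (d.hC m n)) (d.nA A b) (d.nb A b) hC1
  have hsize := d.size_le (le_refl (m + n))
  have hp : p.eval (d.R m n + d.N m n) ≤ p.eval (d.QQ.eval (m + n)) := eval_mono p hsize
  have hq : (p.comp d.QQ + d.QQ).eval (m + n) = p.eval (d.QQ.eval (m + n)) +
      d.QQ.eval (m + n) := by
    rw [Polynomial.eval_add, Polynomial.eval_comp]
  rw [← d.fin_pg] at hrun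
  have hrun' := run_pre ∅ (d.pg m n) (prog_op _ _ _ _ _ _) _ _ _ _ hrun
  refine ⟨ans, outs (d.pg m n) (start A b) ++ nums, (d.pg m n).length + steps, ?_, ?_, ?_, ?_⟩
  · rw [redAlg_eq]
    exact run_mono _ _ (by rw [hq]; omega) _ _ _ hrun'
  · rw [hans, hC2]
  · have h5 := d.prog_le (le_refl (m + n))
    rw [hq]
    omega
  · intro A' b' hA hb v hv
    set L := inputLength A' b' with hL
    have hmn : m + n ≤ L := len_ge A' b' hm hn
    have hqL : (p.comp d.QQ + d.QQ).eval L = p.eval (d.QQ.eval L) + d.QQ.eval L := by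
      rw [Polynomial.eval_add, Polynomial.eval_comp]
    rcases List.mem_append.1 hv with hv | hv
    · obtain ⟨q, hq1, hq2⟩ := d.outs_RP hA hb v hv
      refine ⟨q, hq1, (bitLength_le (E := EE m n L) hq2).trans ?_⟩
      have h6 := d.EE_le_QQ hmn
      rw [hqL]
      omega
    · have hAr : ∀ i j, ∃ q : ℚ, (q : ℝ) = d.nA A b i j ∧ hN q ≤ 2 ^ EE m n L :=
        fun i j => sym_RP hA hb (d.ok m n i j i.2 j.2)
      have hbr : ∀ i, ∃ q : ℚ, (q : ℝ) = d.nb A b i ∧ hN q ≤ 2 ^ EE m n L :=
        fun i => sym_RP hA hb (d.rok m n i i.2)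
      choose A'' hA1 hA2 using hAr
      choose b'' hb1 hb2 using hbr
      obtain ⟨q, hq1, hq2⟩ := hlen A'' b'' hA1 hb1 v hv
      refine ⟨q, hq1, hq2.trans ?_⟩
      have h7 : inputLength A'' b'' ≤ d.QQ.eval L := by
        have h8 : inputLength A'' b'' ≤
            (d.R m n * d.N m n + d.R m n) * (2 * EE m n L + 3) := by
          unfold inputLength
          have h9 : ∑ i, ∑ j, bitLength (A'' i j) ≤
              ∑ _i : Fin (d.R m n), ∑ _j : Fin (d.N m n), (2 * EE m n L + 3) :=
            Finset.sum_le_sum fun i _ => Finset.sum_le_sum fun j _ => bitLength_le (hA2 i j)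
          have h10 : ∑ i, bitLength (b'' i) ≤ ∑ _i : Fin (d.R m n), (2 * EE m n L + 3) :=
            Finset.sum_le_sum fun i _ => bitLength_le (hb2 i)
          simp only [Finset.sum_const, Finset.card_univ, Fintype.card_fin, smul_eq_mul] at h9 h10
          calc _ ≤ _ := Nat.add_le_add h9 h10
            _ = _ := by ring
        have hR := (d.qR m n).trans (eval_mono d.q hmn)
        have hN := (d.qN m n).trans (eval_mono d.q hmn)
        set y := d.q.eval L with hy
        have h11 : d.R m n * d.N m n + d.R m n ≤ (y + 1) ^ 2 := by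
          have h12 : d.R m n * d.N m n ≤ y * y := Nat.mul_le_mul hR hN
          nlinarith
        have h13 := EE_le (m := m) (n := n) hmn
        have h5 : (L + 1) ^ 3 ≤ (L + 1) ^ 4 := Nat.pow_le_pow_right (by omega) (by omega)
        calc inputLength A'' b'' ≤ _ := h8
          _ ≤ (y + 1) ^ 2 * (19 * (L + 1) ^ 3) := Nat.mul_le_mul h11 h13
          _ ≤ (y + 1) ^ 2 * (100 * (L + 1) ^ 4) := Nat.mul_le_mul_left _ (by omega)
          _ = d.QQ.eval L := by rw [QQ_eval]; ring
      rw [hqL]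
      exact (eval_mono p h7).trans (Nat.le_add_right _ _)

end RedData

end Pool.Agent.U23.LR
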