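import Pool.Agent.U23.LR.Toep
import Pool.Agent.U23.LR.Red

/-!
# Linear feasibility and nonnegative multiples of polynomials
-/

set_option autoImplicit false

namespace Pool.Agent.U23.LR

open Finset
open Pool.Agent.H558R2 Pool.Agent.H622R3.SM Pool.Agent.NPC

/-! ### The systems of polynomial multiplication -/

theorem coeff_mul_eq (a q : Polynomial ℝ) (N : ℕ) (hq : q.degree < N) (r : ℕ) :
    (a * q).coeff r = ∑ j ∈ range N, (if j ≤ r then a.coeff (r - j) else 0) * q.coeff j := by
  have h0 : ∀ j, N ≤ j → q.coeff j = 0 := fun j hj =>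
    Polynomial.coeff_eq_zero_of_degree_lt (hq.trans_le (by exact_mod_cast hj))
  rw [mul_comm, Polynomial.coeff_mul, Finset.Nat.sum_antidiagonal_eq_sum_range_succ
    (f := fun i j => q.coeff i * a.coeff j)]
  have h1 : ∀ j ∈ range N, (if j ≤ r then a.coeff (r - j) else 0) * q.coeff j =
      if j ≤ r then q.coeff j * a.coeff (r - j) else 0 := by
    intro j _
    split_ifs
    · ring
    · ring
  rw [sum_congr rfl h1, ← sum_filter]
  symm
  refine sum_subset (fun j hj => ?_) fun j hj hj' => ?_
  · rw [mem_filter] at hj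
    rw [mem_range]
    omega
  · rw [mem_filter, mem_range, not_and] at hj'
    rw [mem_range] at hj
    rw [h0 j (by by_contra h; exact hj' (by omega) (by omega)), zero_mul]

theorem mult_iff {m n : ℕ} {A : Matrix (Fin m) (Fin n) ℝ} {b : Fin m → ℝ} {a : Polynomial ℝ}
    {k : ℕ} (hm : m = a.natDegree + n) (hk : k < m)
    (hA : ∀ (r : Fin m) (j : Fin n), A r j = if (j : ℕ) ≤ r then a.coeff (r - j) else 0)
    (hb : ∀ r : Fin m, b r = if (r : ℕ) = k then 1 else 0) :
    (∃ x : Fin n → ℝ, b ≤ A.mulVec x) ↔ ∃ q : Polynomial ℝ, q.degree < n ∧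
      (∀ r, 0 ≤ (a * q).coeff r) ∧ 0 < (a * q).coeff k := by
  have hrow : ∀ (x : Fin n → ℝ) (q : Polynomial ℝ), q.degree < n →
      (∀ j : Fin n, q.coeff j = x j) →
      ∀ r : Fin m, A.mulVec x r = (a * q).coeff r := by
    intro x q hq hx r
    rw [coeff_mul_eq a q n hq, Finset.sum_range]
    unfold Matrix.mulVec dotProduct
    refine sum_congr rfl fun j _ => ?_
    show A r j * x j = _
    rw [hA, hx]
  constructor
  · rintro ⟨x, hx⟩
    set q : Polynomial ℝ := ∑ j : Fin n, Polynomial.C (x j) * Polynomial.X ^ (j : ℕ) with hq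
    have hc : ∀ j : Fin n, q.coeff j = x j := by
      intro j
      rw [hq, Polynomial.finsetSum_coeff]
      simp only [Polynomial.coeff_C_mul, Polynomial.coeff_X_pow]
      rw [Finset.sum_eq_single j]
      · simp
      · intro i _ hij
        rw [if_neg (fun h => hij (Fin.ext h.symm)), mul_zero]
      · intro h
        exact absurd (mem_univ _) h
    have hd : q.degree < n := by
      refine (Polynomial.degree_sum_le _ _).trans_lt ?_
      rw [Finset.sup_lt_iff (WithBot.bot_lt_coe _)]
      intro j _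
      exact (Polynomial.degree_C_mul_X_pow_le _ _).trans_lt (by exact_mod_cast j.2)
    refine ⟨q, hd, fun r => ?_, ?_⟩
    · rcases lt_or_ge r m with hr | hr
      · have h1 := hx ⟨r, hr⟩
        rw [hrow x q hd hc] at h1
        refine le_trans ?_ h1
        rw [hb]
        split_ifs <;> norm_num
      · rw [Polynomial.coeff_eq_zero_of_natDegree_lt]
        rcases eq_or_ne q 0 with h0 | h0
        · rw [h0, mul_zero, Polynomial.natDegree_zero]
          omega
        · have h2 : q.natDegree < n := (Polynomial.natDegree_lt_iff_degree_lt h0).2 hd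
          exact Polynomial.natDegree_mul_le.trans_lt (by omega)
    · have h1 := hx ⟨k, hk⟩
      rw [hrow x q hd hc, hb, if_pos rfl] at h1
      linarith
  · rintro ⟨q, hd, h1, h2⟩
    set c := (a * q).coeff k with hc
    refine ⟨fun j => c⁻¹ * q.coeff j, fun r => ?_⟩
    have h3 : A.mulVec (fun j => c⁻¹ * q.coeff j) r = c⁻¹ * (a * q).coeff r := by
      have h4 := hrow (fun j => q.coeff j) q hd (fun j => rfl) r
      rw [← h4]
      unfold Matrix.mulVec dotProduct
      rw [mul_sum]
      exact sum_congr rfl fun j _ => by ring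
    rw [h3, hb]
    split_ifs with h
    · rw [h, ← hc, inv_mul_cancel₀ h2.ne']
    · exact mul_nonneg (inv_nonneg.2 h2.le) (h1 r)

/-! ### The reduction -/

/-- the register with a coefficient of the polynomial -/
def areg (m n k : ℕ) : Reg :=
  if k % (2 * (n + 1) + 1) = 0 then [13]
  else if k / (2 * (n + 1) + 1) < m then
    if (k % (2 * (n + 1) + 1) - 1) / 2 < n then
      if k % (2 * (n + 1) + 1) % 2 = 1 then
        [11, k / (2 * (n + 1) + 1), (k % (2 * (n + 1) + 1) - 1) / 2]
      else [21, k / (2 * (n + 1) + 1), (k % (2 * (n + 1) + 1) - 1) / 2]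
    else if k % (2 * (n + 1) + 1) % 2 = 1 then [22, k / (2 * (n + 1) + 1)]
    else [12, k / (2 * (n + 1) + 1)]
  else if (k % (2 * (n + 1) + 1) - 1) / 2 < n then [9]
  else if k % (2 * (n + 1) + 1) % 2 = 1 then [2] else [10]

/-- the number of rows -/
def tR (m n : ℕ) : ℕ := (m + 1) * (2 * (n + 1) + 1) + 2 * (n + 1)

/-- the number of columns -/
def tN (_m n : ℕ) : ℕ := 2 * (n + 1)

/-- the row with the right-hand side 1 -/
def tk (m n : ℕ) : ℕ := (2 * (n + 1) + 1) * m + 2 * (n + 1)

/-- the sources of the entries -/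
def tsrc (m n r j : ℕ) : Reg :=
  if j ≤ r ∧ r - j ≤ (m + 1) * (2 * (n + 1) + 1) then areg m n (r - j) else [9]

/-- the sources of the entries, Hankel matrix -/
def hsrc (m n r j : ℕ) : Reg := tsrc m n r (tN m n - 1 - j)

/-- the sources of the right-hand sides -/
def trsrc (m n r : ℕ) : Reg := if r = tk m n then [2] else [9]

theorem areg_sym (m n k : ℕ) : Sym m n (areg m n k) := by
  unfold areg
  split_ifs with h1 h2 h3 h4 h5 h6 h7
  · exact Sym.big
  · exact Sym.a _ _ h2 h3
  · exact Sym.na _ _ h2 h3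
  · exact Sym.nb _ h2
  · exact Sym.b _ h2
  · exact Sym.zero
  · exact Sym.one
  · exact Sym.neg

theorem tsrc_sym (m n r j : ℕ) : Sym m n (tsrc m n r j) := by
  unfold tsrc
  split_ifs
  · exact areg_sym _ _ _
  · exact Sym.zero

theorem trsrc_sym (m n r : ℕ) : Sym m n (trsrc m n r) := by
  unfold trsrc
  split_ifs
  · exact Sym.one
  · exact Sym.zero

section

variable {m n : ℕ} (A : Matrix (Fin m) (Fin n) ℝ) (b : Fin m → ℝ)

/-- the data -/
noncomputable def DD (i q : ℕ) : ℝ :=
  if i < m then (if q < n then start A b [0, i, q] else -start A b [1, i])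
  else (if q < n then 0 else 1)

theorem sval_areg (k : ℕ) : sval A b (areg m n k) =
    co (2 * (n + 1) + 1) (DD A b) (big A b) k := by
  unfold areg co DD
  split_ifs <;> simp [sval]

theorem two_abs_lt (x : ℝ) : 2 * |x| < 3 + x * x := by
  have h := abs_mul_abs_self x
  nlinarith [abs_nonneg x, sq_nonneg (|x| - 1)]

theorem sums_nonneg :
    0 ≤ ((prs m n).map (fun v => start A b [0, v.1, v.2] * start A b [0, v.1, v.2])).sum ∧
    0 ≤ ((List.range m).map (fun i => start A b [1, i] * start A b [1, i])).sum := by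
  constructor
  · refine List.sum_nonneg fun x hx => ?_
    rw [List.mem_map] at hx
    obtain ⟨v, -, rfl⟩ := hx
    exact mul_self_nonneg _
  · refine List.sum_nonneg fun x hx => ?_
    rw [List.mem_map] at hx
    obtain ⟨v, -, rfl⟩ := hx
    exact mul_self_nonneg _

theorem DD_lt (i q : ℕ) : 2 * |DD A b i q| < big A b := by
  obtain ⟨s1, s2⟩ := sums_nonneg A b
  unfold DD big
  split_ifs with h1 h2 h3
  · have h4 : start A b [0, i, q] * start A b [0, i, q] ≤
        ((prs m n).map (fun v => start A b [0, v.1, v.2] * start A b [0, v.1, v.2])).sum := by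
      refine List.single_le_sum (fun x hx => ?_) _ (List.mem_map.2 ⟨(i, q), mem_prs.2 ⟨h1, h2⟩, rfl⟩)
      rw [List.mem_map] at hx
      obtain ⟨v, -, rfl⟩ := hx
      exact mul_self_nonneg _
    have h5 := two_abs_lt (start A b [0, i, q])
    linarith
  · have h4 : start A b [1, i] * start A b [1, i] ≤
        ((List.range m).map (fun i => start A b [1, i] * start A b [1, i])).sum := by
      refine List.single_le_sum (fun x hx => ?_) _
        (List.mem_map.2 ⟨i, List.mem_range.2 h1, rfl⟩)
      rw [List.mem_map] at hx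
      obtain ⟨v, -, rfl⟩ := hx
      exact mul_self_nonneg _
    have h5 := two_abs_lt (start A b [1, i])
    rw [abs_neg]
    linarith
  · rw [abs_zero]
    linarith
  · rw [abs_one]
    linarith

theorem big_pos : 0 < big A b := by
  obtain ⟨s1, s2⟩ := sums_nonneg A b
  unfold big
  linarith

/-- the polynomial -/
noncomputable def tpoly : Polynomial ℝ :=
  ∑ k ∈ range ((m + 1) * (2 * (n + 1) + 1) + 1),
    Polynomial.C (co (2 * (n + 1) + 1) (DD A b) (big A b) k) * Polynomial.X ^ k

theorem tpoly_coeff (k : ℕ) :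
    (tpoly A b).coeff k = cc (m + 1) (n + 1) (DD A b) (big A b) k := by
  unfold tpoly cc
  rw [Polynomial.finsetSum_coeff]
  simp only [Polynomial.coeff_C_mul, Polynomial.coeff_X_pow]
  split_ifs with h
  · rw [Finset.sum_eq_single k]
    · simp
    · intro i _ hik
      rw [if_neg (Ne.symm hik), mul_zero]
    · intro h'
      exact absurd (mem_range.2 (by omega)) h'
  · refine sum_eq_zero fun i hi => ?_
    rw [mem_range] at hi
    rw [if_neg (by omega), mul_zero]

theorem tpoly_natDegree : (tpoly A b).natDegree = (m + 1) * (2 * (n + 1) + 1) := by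
  refine le_antisymm ?_ ?_
  · rw [Polynomial.natDegree_le_iff_coeff_eq_zero]
    intro k hk
    rw [tpoly_coeff]
    unfold cc
    rw [if_neg (by omega)]
  · refine Polynomial.le_natDegree_of_ne_zero ?_
    rw [tpoly_coeff]
    unfold cc
    rw [if_pos le_rfl]
    unfold co
    rw [if_pos (Nat.mul_mod_left _ _)]
    exact (big_pos A b).ne'

theorem sval_tsrc (r j : ℕ) : sval A b (tsrc m n r j) =
    if j ≤ r then cc (m + 1) (n + 1) (DD A b) (big A b) (r - j) else 0 := by
  unfold tsrc cc
  by_cases h1 : j ≤ r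
  · by_cases h2 : r - j ≤ (m + 1) * (2 * (n + 1) + 1)
    · rw [if_pos ⟨h1, h2⟩, if_pos h1, if_pos h2, sval_areg]
    · rw [if_neg (fun h => h2 h.2), if_pos h1, if_neg h2]
      rfl
  · rw [if_neg (fun h => h1 h.1), if_neg h1]
    rfl

theorem sval_trsrc (r : ℕ) : sval A b (trsrc m n r) = if r = tk m n then 1 else 0 := by
  unfold trsrc
  split_ifs <;> rfl

theorem tk_lt (m n : ℕ) : tk m n < tR m n := by
  unfold tk tR
  have : (m + 1) * (2 * (n + 1) + 1) = (2 * (n + 1) + 1) * m + (2 * (n + 1) + 1) := by ring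
  omega

/-- solutions of the given system give positive solutions of the Toeplitz system -/
theorem toep_of (z : Fin n → ℝ) (hz : b ≤ A.mulVec z) : ∃ x : ℕ → ℝ,
    (∀ j < 2 * (n + 1), 0 < x j) ∧ ∀ r < tR m n, (if r = tk m n then (1 : ℝ) else 0) ≤
      lhs (m + 1) (n + 1) (DD A b) (big A b) x r := by
  obtain ⟨x, hx, h1, h2⟩ := exists_shift (m := m + 1) (n := n + 1) (by omega) (DD_lt A b)
    (fun q => if h : q < n then z ⟨q, h⟩ else 1)
  refine ⟨x, hx, fun r hr => ?_⟩
  by_cases h : ∀ i < m + 1, r ≠ (2 * (n + 1) + 1) * i + 2 * (n + 1)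
  · rw [if_neg (show ¬ r = tk m n from fun h' => h m (by omega) h')]
    exact h1 r hr h
  · push Not at h
    obtain ⟨i, hi, rfl⟩ := h
    rw [h2 i hi, sum_range_succ, dif_neg (lt_irrefl n)]
    rcases Nat.lt_succ_iff_lt_or_eq.1 hi with hi | rfl
    · have h3 : ∑ q ∈ range n, DD A b i q * (if h : q < n then z ⟨q, h⟩ else 1) =
          A.mulVec z ⟨i, hi⟩ := by
        rw [Finset.sum_range]
        unfold Matrix.mulVec dotProduct
        refine sum_congr rfl fun q _ => ?_
        unfold DD
        rw [if_pos hi, if_pos q.2, dif_pos q.2]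
        show (if h : i < m ∧ (q : ℕ) < n then A ⟨i, h.1⟩ ⟨q, h.2⟩ else 0) * _ = _
        rw [dif_pos ⟨hi, q.2⟩]
      have h4 : DD A b i n = -b ⟨i, hi⟩ := by
        unfold DD
        rw [if_pos hi, if_neg (lt_irrefl n)]
        show -(if h : i < m then b ⟨i, h⟩ else 0) = _
        rw [dif_pos hi]
      rw [h3, h4, if_neg]
      · have := hz ⟨i, hi⟩
        linarith
      · unfold tk
        intro h
        have h5 : (2 * (n + 1) + 1) * i = (2 * (n + 1) + 1) * m := by omega
        have h6 := Nat.eq_of_mul_eq_mul_left (by omega) h5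
        omega
    · have h3 : ∑ q ∈ range n, DD A b i q * (if h : q < n then z ⟨q, h⟩ else 1) = 0 := by
        refine sum_eq_zero fun q hq => ?_
        unfold DD
        rw [if_neg (lt_irrefl _), if_pos (mem_range.1 hq), zero_mul]
      have h4 : DD A b i n = 1 := by
        unfold DD
        rw [if_neg (lt_irrefl _), if_neg (lt_irrefl n)]
      rw [h3, h4, if_pos (by unfold tk; rfl)]
      norm_num

/-- **Solvability of the Toeplitz system.** -/
theorem toep_iff : (∃ x : ℕ → ℝ, ∀ r < tR m n, (if r = tk m n then (1 : ℝ) else 0) ≤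
      lhs (m + 1) (n + 1) (DD A b) (big A b) x r) ↔ ∃ x : Fin n → ℝ, b ≤ A.mulVec x := by
  constructor
  · rintro ⟨x, hx⟩
    set y : ℕ → ℝ := fun q => x (2 * (n + 1) - 1 - 2 * q) - x (2 * (n + 1) - 2 - 2 * q) with hy
    have hrow : ∀ i < m + 1, lhs (m + 1) (n + 1) (DD A b) (big A b) x
        ((2 * (n + 1) + 1) * i + 2 * (n + 1)) = ∑ q ∈ range (n + 1), DD A b i q * y q :=
      fun i hi => data_row _ _ hi x
    have hlt : ∀ i < m + 1, (2 * (n + 1) + 1) * i + 2 * (n + 1) < tR m n := by
      intro i hi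
      have h1 : (2 * (n + 1) + 1) * (i + 1) ≤ (2 * (n + 1) + 1) * (m + 1) :=
        Nat.mul_le_mul_left _ hi
      rw [Nat.mul_succ] at h1
      unfold tR
      rw [mul_comm (m + 1)]
      omega
    have hn : 1 ≤ y n := by
      have h1 := hx (tk m n) (tk_lt m n)
      rw [if_pos rfl, tk, hrow m (by omega), sum_range_succ] at h1
      have h2 : ∑ q ∈ range n, DD A b m q * y q = 0 := by
        refine sum_eq_zero fun q hq => ?_
        unfold DD
        rw [if_neg (lt_irrefl m), if_pos (mem_range.1 hq), zero_mul]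
      have h3 : DD A b m n = 1 := by
        unfold DD
        rw [if_neg (lt_irrefl m), if_neg (lt_irrefl n)]
      rw [h2, h3] at h1
      linarith
    refine ⟨fun q => y q / y n, fun i => ?_⟩
    have h1 := hx _ (hlt i (by omega))
    rw [if_neg, hrow i (by omega), sum_range_succ] at h1
    · have h2 : DD A b i n = -b i := by
        unfold DD
        rw [if_pos i.2, if_neg (lt_irrefl n)]
        show -(if h : (i : ℕ) < m then b ⟨i, h⟩ else 0) = _
        rw [dif_pos i.2]
      have h3 : ∑ q ∈ range n, DD A b i q * y q = ∑ q : Fin n, A i q * y q := by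
        rw [Finset.sum_range]
        refine sum_congr rfl fun q _ => ?_
        unfold DD
        rw [if_pos i.2, if_pos q.2]
        show (if h : (i : ℕ) < m ∧ (q : ℕ) < n then A ⟨i, h.1⟩ ⟨q, h.2⟩ else 0) * _ = _
        rw [dif_pos ⟨i.2, q.2⟩]
      rw [h2, h3] at h1
      unfold Matrix.mulVec dotProduct
      have h4 : ∑ q : Fin n, A i q * (y q / y n) = (∑ q : Fin n, A i q * y q) / y n := by
        rw [Finset.sum_div]
        exact sum_congr rfl fun q _ => by ring
      rw [h4, le_div_iff₀ (by linarith)]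
      linarith
    · unfold tk
      intro h
      have h5 : (2 * (n + 1) + 1) * (i : ℕ) = (2 * (n + 1) + 1) * m := by omega
      have h6 := Nat.eq_of_mul_eq_mul_left (by omega) h5
      have := i.2
      omega
  · rintro ⟨z, hz⟩
    obtain ⟨x, -, hx⟩ := toep_of A b z hz
    exact ⟨x, hx⟩

/-- the polynomial has a multiplier with positive coefficients -/
theorem exists_pos (z : Fin n → ℝ) (hz : b ≤ A.mulVec z) :
    ∃ q : Polynomial ℝ, q.degree < (2 * (n + 1) : ℕ) ∧ (∀ j < 2 * (n + 1), 0 < q.coeff j) ∧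
      (∀ r, 0 ≤ (tpoly A b * q).coeff r) ∧ 0 < (tpoly A b * q).coeff (tk m n) := by
  obtain ⟨x, hx, hall⟩ := toep_of A b z hz
  set q : Polynomial ℝ := ∑ j ∈ range (2 * (n + 1)), Polynomial.C (x j) * Polynomial.X ^ j with hq
  have hc : ∀ j < 2 * (n + 1), q.coeff j = x j := by
    intro j hj
    rw [hq, Polynomial.finsetSum_coeff]
    simp only [Polynomial.coeff_C_mul, Polynomial.coeff_X_pow]
    rw [Finset.sum_eq_single j]
    · simp
    · intro i _ hij
      rw [if_neg (fun h => hij h.symm), mul_zero]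
    · intro h
      exact absurd (mem_range.2 hj) h
  have hd : q.degree < (2 * (n + 1) : ℕ) := by
    refine (Polynomial.degree_sum_le _ _).trans_lt ?_
    rw [Finset.sup_lt_iff (WithBot.bot_lt_coe _)]
    intro j hj
    rw [mem_range] at hj
    exact (Polynomial.degree_C_mul_X_pow_le _ _).trans_lt (by exact_mod_cast hj)
  have hrow : ∀ r, (tpoly A b * q).coeff r =
      lhs (m + 1) (n + 1) (DD A b) (big A b) x r := by
    intro r
    rw [coeff_mul_eq _ _ _ hd]
    unfold lhs
    refine sum_congr rfl fun j hj => ?_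
    rw [tpoly_coeff, hc j (mem_range.1 hj)]
  refine ⟨q, hd, fun j hj => by rw [hc j hj]; exact hx j hj, fun r => ?_, ?_⟩
  · rcases lt_or_ge r (tR m n) with hr | hr
    · rw [hrow]
      refine le_trans ?_ (hall r hr)
      split_ifs <;> norm_num
    · rw [Polynomial.coeff_eq_zero_of_natDegree_lt]
      rcases eq_or_ne q 0 with h0 | h0
      · rw [h0, mul_zero, Polynomial.natDegree_zero]
        unfold tR at hr
        omega
      · have h3 : q.natDegree < 2 * (n + 1) := (Polynomial.natDegree_lt_iff_degree_lt h0).2 hd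
        refine Polynomial.natDegree_mul_le.trans_lt ?_
        rw [tpoly_natDegree]
        unfold tR at hr
        omega
  · rw [hrow]
    have := hall (tk m n) (tk_lt m n)
    rw [if_pos rfl] at this
    linarith

end

end Pool.Agent.U23.LR
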