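import Pool.Agent.U23.LR.Exec
import Pool.Agent.U23.LR.Height
import Pool.Agent.H671R2.GraphEnc

/-!
# Reductions which copy entries: the program
-/

set_option autoImplicit false

namespace Pool.Agent.U23.LR

open Pool.Agent.H558R2 Pool.Agent.H622R3.SM Pool.Agent.NPC

/-- The registers from which the entries of the new system may be taken: `0`, `1`, `-1`, the large
number, and the entries of the given system and their negatives. -/
inductive Sym (m n : ℕ) : Reg → Prop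
  | zero : Sym m n [9]
  | one : Sym m n [2]
  | neg : Sym m n [10]
  | big : Sym m n [13]
  | a (i j : ℕ) (hi : i < m) (hj : j < n) : Sym m n [11, i, j]
  | na (i j : ℕ) (hi : i < m) (hj : j < n) : Sym m n [21, i, j]
  | b (i : ℕ) (hi : i < m) : Sym m n [12, i]
  | nb (i : ℕ) (hi : i < m) : Sym m n [22, i]

/-- pairs of indices -/
def prs (m n : ℕ) : List (ℕ × ℕ) := List.range m ×ˢ List.range n

theorem mem_prs {m n : ℕ} {v : ℕ × ℕ} : v ∈ prs m n ↔ v.1 < m ∧ v.2 < n := by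
  obtain ⟨a, b⟩ := v
  simp [prs]

theorem length_prs (m n : ℕ) : (prs m n).length = m * n := by
  simp [prs, List.length_product]

/-- part 1: copies, negatives, squares -/
def Q1 (m n : ℕ) : List Instr :=
  (prs m n).map (fun v => ⟨Op.add, [11, v.1, v.2], [0, v.1, v.2], [9]⟩) ++
  ((prs m n).map (fun v => ⟨Op.sub, [21, v.1, v.2], [9], [0, v.1, v.2]⟩) ++
  ((prs m n).map (fun v => ⟨Op.mul, [14, v.1, v.2], [0, v.1, v.2], [0, v.1, v.2]⟩) ++
  ((List.range m).map (fun i => ⟨Op.add, [12, i], [1, i], [9]⟩) ++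
  ((List.range m).map (fun i => ⟨Op.sub, [22, i], [9], [1, i]⟩) ++
  ((List.range m).map (fun i => ⟨Op.mul, [15, i], [1, i], [1, i]⟩) ++
  [⟨Op.sub, [10], [9], [2]⟩])))))

/-- the summands of the large number -/
def sreg (m n : ℕ) : List Reg :=
  [[2], [2], [2]] ++ ((prs m n).map (fun v => [14, v.1, v.2]) ++
    (List.range m).map (fun i => [15, i]))

/-- part 2: the large number -/
def Q2 (m n : ℕ) : List Instr := (sreg m n).map (fun s => ⟨Op.add, [13], [13], s⟩)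

/-- part 3: the new system -/
def Q3 (R N : ℕ) (src : ℕ → ℕ → Reg) (rsrc : ℕ → Reg) : List Instr :=
  (prs R N).map (fun v => ⟨Op.add, [0, v.1, v.2], src v.1 v.2, [9]⟩) ++
  (List.range R).map (fun r => ⟨Op.add, [1, r], rsrc r, [9]⟩)

/-- auxiliary registers -/
def aux (m n : ℕ) : List Reg :=
  (prs m n).map (fun v => [11, v.1, v.2]) ++ ((prs m n).map (fun v => [21, v.1, v.2]) ++
    ((prs m n).map (fun v => [14, v.1, v.2]) ++ ((List.range m).map (fun i => [12, i]) ++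
      ((List.range m).map (fun i => [22, i]) ++ ((List.range m).map (fun i => [15, i]) ++
        [[10], [13]])))))

/-- part 4: the auxiliary registers are set to zero -/
def Q4 (m n : ℕ) : List Instr := (aux m n).map (fun s => ⟨Op.sub, s, [9], [9]⟩)

/-- the program -/
def prog (m n R N : ℕ) (src : ℕ → ℕ → Reg) (rsrc : ℕ → Reg) : List Instr :=
  Q1 m n ++ (Q2 m n ++ (Q3 R N src rsrc ++ Q4 m n))

theorem mem_Q1 {m n : ℕ} {I : Instr} : I ∈ Q1 m n ↔
    (∃ i j, i < m ∧ j < n ∧ I = ⟨Op.add, [11, i, j], [0, i, j], [9]⟩) ∨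
    (∃ i j, i < m ∧ j < n ∧ I = ⟨Op.sub, [21, i, j], [9], [0, i, j]⟩) ∨
    (∃ i j, i < m ∧ j < n ∧ I = ⟨Op.mul, [14, i, j], [0, i, j], [0, i, j]⟩) ∨
    (∃ i, i < m ∧ I = ⟨Op.add, [12, i], [1, i], [9]⟩) ∨
    (∃ i, i < m ∧ I = ⟨Op.sub, [22, i], [9], [1, i]⟩) ∨
    (∃ i, i < m ∧ I = ⟨Op.mul, [15, i], [1, i], [1, i]⟩) ∨
    I = ⟨Op.sub, [10], [9], [2]⟩ := by
  unfold Q1
  simp only [List.mem_append, List.mem_map, Prod.exists, mem_prs, List.mem_range,
    List.mem_cons, List.not_mem_nil, or_false, and_assoc, eq_comm (b := I)]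

theorem mem_Q3 {R N : ℕ} {src : ℕ → ℕ → Reg} {rsrc : ℕ → Reg} {I : Instr} :
    I ∈ Q3 R N src rsrc ↔
    (∃ r j, r < R ∧ j < N ∧ I = ⟨Op.add, [0, r, j], src r j, [9]⟩) ∨
    ∃ r, r < R ∧ I = ⟨Op.add, [1, r], rsrc r, [9]⟩ := by
  unfold Q3
  simp only [List.mem_append, List.mem_map, Prod.exists, mem_prs, List.mem_range, and_assoc,
    eq_comm (b := I)]

theorem mem_aux {m n : ℕ} {x : Reg} : x ∈ aux m n ↔
    (∃ i j, i < m ∧ j < n ∧ x = [11, i, j]) ∨ (∃ i j, i < m ∧ j < n ∧ x = [21, i, j]) ∨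
    (∃ i j, i < m ∧ j < n ∧ x = [14, i, j]) ∨ (∃ i, i < m ∧ x = [12, i]) ∨
    (∃ i, i < m ∧ x = [22, i]) ∨ (∃ i, i < m ∧ x = [15, i]) ∨ x = [10] ∨ x = [13] := by
  unfold aux
  simp only [List.mem_append, List.mem_map, Prod.exists, mem_prs, List.mem_range,
    List.mem_cons, List.not_mem_nil, or_false, and_assoc, eq_comm (b := x)]

/-- the instruction with a given target in part 1 -/
def f1 : Reg → Instr
  | [11, i, j] => ⟨Op.add, [11, i, j], [0, i, j], [9]⟩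
  | [21, i, j] => ⟨Op.sub, [21, i, j], [9], [0, i, j]⟩
  | [14, i, j] => ⟨Op.mul, [14, i, j], [0, i, j], [0, i, j]⟩
  | [12, i] => ⟨Op.add, [12, i], [1, i], [9]⟩
  | [22, i] => ⟨Op.sub, [22, i], [9], [1, i]⟩
  | [15, i] => ⟨Op.mul, [15, i], [1, i], [1, i]⟩
  | _ => ⟨Op.sub, [10], [9], [2]⟩

theorem eq_f1 {m n : ℕ} {I : Instr} (h : I ∈ Q1 m n) : I = f1 I.dst := by
  rcases mem_Q1.1 h with ⟨i, j, -, -, rfl⟩ | ⟨i, j, -, -, rfl⟩ | ⟨i, j, -, -, rfl⟩ |
    ⟨i, -, rfl⟩ | ⟨i, -, rfl⟩ | ⟨i, -, rfl⟩ | rfl <;> rfl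

theorem heads1 {m n : ℕ} {I : Instr} (h : I ∈ Q1 m n) :
    (∃ t l, I.dst = t :: l ∧ 10 ≤ t) ∧ (∃ t l, I.fst = t :: l ∧ t ≤ 9) ∧
      ∃ t l, I.snd = t :: l ∧ t ≤ 9 := by
  rcases mem_Q1.1 h with ⟨i, j, -, -, rfl⟩ | ⟨i, j, -, -, rfl⟩ | ⟨i, j, -, -, rfl⟩ |
    ⟨i, -, rfl⟩ | ⟨i, -, rfl⟩ | ⟨i, -, rfl⟩ | rfl <;> simp

theorem par_Q1 (m n : ℕ) : Par (Q1 m n) := by
  refine ⟨fun I hI J hJ h => ?_, fun I hI J hJ h => ?_, fun I hI J hJ h => ?_⟩
  · obtain ⟨⟨t, l, h1, h2⟩, -, -⟩ := heads1 hI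
    obtain ⟨-, ⟨t', l', h3, h4⟩, -⟩ := heads1 hJ
    rw [h1, h3, List.cons.injEq] at h
    omega
  · obtain ⟨⟨t, l, h1, h2⟩, -, -⟩ := heads1 hI
    obtain ⟨-, -, t', l', h3, h4⟩ := heads1 hJ
    rw [h1, h3, List.cons.injEq] at h
    omega
  · rw [eq_f1 hI, eq_f1 hJ, h]

theorem Sym.head {m n : ℕ} {x : Reg} (h : Sym m n x) : ∃ t l, x = t :: l ∧ 2 ≤ t := by
  cases h <;> simp

theorem par_Q3 {m n R N : ℕ} {src : ℕ → ℕ → Reg} {rsrc : ℕ → Reg}
    (hs : ∀ r j, r < R → j < N → Sym m n (src r j)) (hr : ∀ r, r < R → Sym m n (rsrc r)) :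
    Par (Q3 R N src rsrc) := by
  have hd : ∀ I ∈ Q3 R N src rsrc, (∃ t l, I.dst = t :: l ∧ t ≤ 1) ∧
      (∃ t l, I.fst = t :: l ∧ 2 ≤ t) ∧ I.snd = [9] := by
    intro I hI
    rcases mem_Q3.1 hI with ⟨r, j, h1, h2, rfl⟩ | ⟨r, h1, rfl⟩
    · exact ⟨⟨0, _, rfl, by omega⟩, (hs r j h1 h2).head, rfl⟩
    · exact ⟨⟨1, _, rfl, by omega⟩, (hr r h1).head, rfl⟩
  refine ⟨fun I hI J hJ h => ?_, fun I hI J hJ h => ?_, fun I hI J hJ h => ?_⟩
  · obtain ⟨⟨t, l, h1, h2⟩, -, -⟩ := hd I hI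
    obtain ⟨-, ⟨t', l', h3, h4⟩, -⟩ := hd J hJ
    rw [h1, h3, List.cons.injEq] at h
    omega
  · obtain ⟨⟨t, l, h1, h2⟩, -, -⟩ := hd I hI
    obtain ⟨-, -, h3⟩ := hd J hJ
    rw [h1, h3, List.cons.injEq] at h
    omega
  · rcases mem_Q3.1 hI with ⟨r, j, h1, h2, rfl⟩ | ⟨r, h1, rfl⟩ <;>
      rcases mem_Q3.1 hJ with ⟨r', j', h3, h4, rfl⟩ | ⟨r', h3, rfl⟩
    · simp only [List.cons.injEq, and_true, true_and] at h
      obtain ⟨rfl, rfl⟩ := h
      rfl
    · simp at h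
    · simp at h
    · simp only [List.cons.injEq, and_true, true_and] at h
      subst h
      rfl

theorem aux_head {m n : ℕ} {x : Reg} (h : x ∈ aux m n) : ∃ t l, x = t :: l ∧ 10 ≤ t := by
  rcases mem_aux.1 h with ⟨i, j, -, -, rfl⟩ | ⟨i, j, -, -, rfl⟩ | ⟨i, j, -, -, rfl⟩ |
    ⟨i, -, rfl⟩ | ⟨i, -, rfl⟩ | ⟨i, -, rfl⟩ | rfl | rfl <;> simp

theorem par_Q4 (m n : ℕ) : Par (Q4 m n) := by
  have hd : ∀ I ∈ Q4 m n, ∃ s ∈ aux m n, I = ⟨Op.sub, s, [9], [9]⟩ := by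
    intro I hI
    simp only [Q4, List.mem_map] at hI
    obtain ⟨s, hs, rfl⟩ := hI
    exact ⟨s, hs, rfl⟩
  have h9 : ∀ s ∈ aux m n, s ≠ [9] := by
    intro s hs h
    obtain ⟨t, l, h1, h2⟩ := aux_head hs
    rw [h1, List.cons.injEq] at h
    omega
  refine ⟨fun I hI J hJ => ?_, fun I hI J hJ => ?_, fun I hI J hJ hIJ => ?_⟩
  · obtain ⟨s, hs, rfl⟩ := hd I hI
    obtain ⟨s', hs', rfl⟩ := hd J hJ
    exact h9 s hs
  · obtain ⟨s, hs, rfl⟩ := hd I hI
    obtain ⟨s', hs', rfl⟩ := hd J hJ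
    exact h9 s hs
  · obtain ⟨s, hs, rfl⟩ := hd I hI
    obtain ⟨s', hs', rfl⟩ := hd J hJ
    have : s = s' := hIJ
    rw [this]

theorem prog_op (m n R N : ℕ) (src : ℕ → ℕ → Reg) (rsrc : ℕ → Reg) :
    ∀ I ∈ prog m n R N src rsrc, I.op ≠ Op.div := by
  intro I hI
  simp only [prog, List.mem_append] at hI
  rcases hI with hI | hI | hI | hI
  · rcases mem_Q1.1 hI with ⟨i, j, -, -, rfl⟩ | ⟨i, j, -, -, rfl⟩ | ⟨i, j, -, -, rfl⟩ |
      ⟨i, -, rfl⟩ | ⟨i, -, rfl⟩ | ⟨i, -, rfl⟩ | rfl <;> simp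
  · simp only [Q2, List.mem_map] at hI
    obtain ⟨s, -, rfl⟩ := hI
    simp
  · rcases mem_Q3.1 hI with ⟨r, j, -, -, rfl⟩ | ⟨r, -, rfl⟩ <;> simp
  · simp only [Q4, List.mem_map] at hI
    obtain ⟨s, -, rfl⟩ := hI
    simp

/-! ### The store -/

section store

variable {m n : ℕ} (A : Matrix (Fin m) (Fin n) ℝ) (b : Fin m → ℝ)

/-- the large number -/
noncomputable def big : ℝ :=
  3 + ((prs m n).map (fun v => start A b [0, v.1, v.2] * start A b [0, v.1, v.2])).sum +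
    ((List.range m).map (fun i => start A b [1, i] * start A b [1, i])).sum

/-- the value of a symbol -/
noncomputable def sval : Reg → ℝ
  | [9] => 0
  | [2] => 1
  | [10] => -1
  | [13] => big A b
  | [11, i, j] => start A b [0, i, j]
  | [21, i, j] => -start A b [0, i, j]
  | [12, i] => start A b [1, i]
  | [22, i] => -start A b [1, i]
  | _ => 0

theorem start9 : start A b [9] = 0 := rfl

theorem start2 : start A b [2] = 1 := rfl

/-- the store after part 1 -/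
noncomputable def s1 : Reg → ℝ := fin (Q1 m n) (start A b)
/-- the store after part 2 -/
noncomputable def s2 : Reg → ℝ := fin (Q2 m n) (s1 A b)

theorem keep1 {x : Reg} (h : ∀ t l, x = t :: l → t ≤ 9) : s1 A b x = start A b x := by
  refine fin_of_not _ _ (fun I hI => ?_) _
  obtain ⟨⟨t, l, h1, h2⟩, -, -⟩ := heads1 hI
  intro h3
  have := h t l (h3 ▸ h1)
  omega

theorem s1_mem {I : Instr} (h : I ∈ Q1 m n) : s1 A b I.dst = ival (start A b) I :=
  fin_par _ (par_Q1 m n) _ I h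

theorem keep2 {ρ : Reg → ℝ} {x : Reg} (h : x ≠ [13]) : fin (Q2 m n) ρ x = ρ x := by
  refine fin_of_not _ _ (fun I hI => ?_) _
  simp only [Q2, List.mem_map] at hI
  obtain ⟨s, -, rfl⟩ := hI
  exact Ne.symm h

theorem s1_9 : s1 A b [9] = 0 := (keep1 A b (by simp)).trans rfl
theorem s1_2 : s1 A b [2] = 1 := (keep1 A b (by simp)).trans rfl
theorem s2_9 : s2 A b [9] = 0 := (keep2 (by simp)).trans (s1_9 A b)

theorem s1_13 : s1 A b [13] = 0 := by
  refine Eq.trans (fin_of_not _ _ (fun I hI => ?_) _) (show start A b [13] = 0 from rfl)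
  rcases mem_Q1.1 hI with ⟨i, j, -, -, rfl⟩ | ⟨i, j, -, -, rfl⟩ | ⟨i, j, -, -, rfl⟩ |
    ⟨i, -, rfl⟩ | ⟨i, -, rfl⟩ | ⟨i, -, rfl⟩ | rfl <;> simp

theorem not_sreg : ([13] : Reg) ∉ sreg m n := by
  unfold sreg
  simp

theorem s1_sq {i j : ℕ} (hi : i < m) (hj : j < n) :
    s1 A b [14, i, j] = start A b [0, i, j] * start A b [0, i, j] :=
  s1_mem A b (I := ⟨Op.mul, [14, i, j], [0, i, j], [0, i, j]⟩)
    (mem_Q1.2 (Or.inr (Or.inr (Or.inl ⟨i, j, hi, hj, rfl⟩))))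

theorem s1_sqb {i : ℕ} (hi : i < m) :
    s1 A b [15, i] = start A b [1, i] * start A b [1, i] :=
  s1_mem A b (I := ⟨Op.mul, [15, i], [1, i], [1, i]⟩)
    (mem_Q1.2 (Or.inr (Or.inr (Or.inr (Or.inr (Or.inr (Or.inl ⟨i, hi, rfl⟩)))))))

theorem s2_13 : s2 A b [13] = big A b := by
  unfold s2 Q2
  rw [fin_acc _ _ not_sreg, s1_13, zero_add]
  unfold sreg big
  simp only [List.map_append, List.map_cons, List.map_nil, List.map_map, List.sum_append,
    List.sum_cons, List.sum_nil, s1_2]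
  have h1 : (prs m n).map (s1 A b ∘ fun v => [14, v.1, v.2]) =
      (prs m n).map (fun v => start A b [0, v.1, v.2] * start A b [0, v.1, v.2]) :=
    List.map_congr_left fun v hv => s1_sq A b (mem_prs.1 hv).1 (mem_prs.1 hv).2
  have h2 : (List.range m).map (s1 A b ∘ fun i => [15, i]) =
      (List.range m).map (fun i => start A b [1, i] * start A b [1, i]) :=
    List.map_congr_left fun v hv => s1_sqb A b (List.mem_range.1 hv)
  rw [h1, h2]
  ring

theorem s2_sym {x : Reg} (h : Sym m n x) : s2 A b x = sval A b x := by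
  cases h with
  | zero => exact s2_9 A b
  | one => exact (keep2 (by simp)).trans (s1_2 A b)
  | neg =>
    refine (keep2 (by simp)).trans ?_
    refine (s1_mem A b (I := ⟨Op.sub, [10], [9], [2]⟩)
      (mem_Q1.2 (Or.inr (Or.inr (Or.inr (Or.inr (Or.inr (Or.inr rfl)))))))).trans ?_
    show start A b [9] - start A b [2] = -1
    rw [start9, start2, zero_sub]
  | big => exact s2_13 A b
  | a i j hi hj =>
    refine (keep2 (by simp)).trans ?_
    refine (s1_mem A b (I := ⟨Op.add, [11, i, j], [0, i, j], [9]⟩)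
      (mem_Q1.2 (Or.inl ⟨i, j, hi, hj, rfl⟩))).trans ?_
    show start A b [0, i, j] + start A b [9] = start A b [0, i, j]
    rw [start9, add_zero]
  | na i j hi hj =>
    refine (keep2 (by simp)).trans ?_
    refine (s1_mem A b (I := ⟨Op.sub, [21, i, j], [9], [0, i, j]⟩)
      (mem_Q1.2 (Or.inr (Or.inl ⟨i, j, hi, hj, rfl⟩)))).trans ?_
    show start A b [9] - start A b [0, i, j] = -start A b [0, i, j]
    rw [start9, zero_sub]
  | b i hi =>
    refine (keep2 (by simp)).trans ?_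
    refine (s1_mem A b (I := ⟨Op.add, [12, i], [1, i], [9]⟩)
      (mem_Q1.2 (Or.inr (Or.inr (Or.inr (Or.inl ⟨i, hi, rfl⟩)))))).trans ?_
    show start A b [1, i] + start A b [9] = start A b [1, i]
    rw [start9, add_zero]
  | nb i hi =>
    refine (keep2 (by simp)).trans ?_
    refine (s1_mem A b (I := ⟨Op.sub, [22, i], [9], [1, i]⟩)
      (mem_Q1.2 (Or.inr (Or.inr (Or.inr (Or.inr (Or.inl ⟨i, hi, rfl⟩))))))).trans ?_
    show start A b [9] - start A b [1, i] = -start A b [1, i]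
    rw [start9, zero_sub]

variable {R N : ℕ} {src : ℕ → ℕ → Reg} {rsrc : ℕ → Reg}

theorem keep3 {ρ : Reg → ℝ} {x : Reg} (h : ∀ i j, i < R → j < N → x ≠ [0, i, j])
    (h' : ∀ i, i < R → x ≠ [1, i]) : fin (Q3 R N src rsrc) ρ x = ρ x := by
  refine fin_of_not _ _ (fun I hI => ?_) _
  rcases mem_Q3.1 hI with ⟨r, j, h1, h2, rfl⟩ | ⟨r, h1, rfl⟩
  · exact Ne.symm (h _ _ h1 h2)
  · exact Ne.symm (h' _ h1)

theorem keep4 {ρ : Reg → ℝ} {x : Reg} (h : x ∉ aux m n) : fin (Q4 m n) ρ x = ρ x := by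
  refine fin_of_not _ _ (fun I hI => ?_) _
  simp only [Q4, List.mem_map] at hI
  obtain ⟨s, hs, rfl⟩ := hI
  rintro rfl
  exact h hs

/-- **The program computes the new system.** -/
theorem fin_prog (hs : ∀ r j, r < R → j < N → Sym m n (src r j))
    (hr : ∀ r, r < R → Sym m n (rsrc r)) (hR : m ≤ R) (hN : n ≤ N) :
    fin (prog m n R N src rsrc) (start A b) =
      start (m := R) (n := N) (fun i j => sval A b (src i j)) (fun i => sval A b (rsrc i)) := by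
  have h0 : fin (prog m n R N src rsrc) (start A b) =
      fin (Q4 m n) (fin (Q3 R N src rsrc) (s2 A b)) := by
    unfold prog
    rw [fin_append, fin_append, fin_append]
    rfl
  rw [h0]
  funext x
  by_cases hx : x ∈ aux m n
  · have h1 := fin_par (Q4 m n) (par_Q4 m n) (fin (Q3 R N src rsrc) (s2 A b))
      ⟨Op.sub, x, [9], [9]⟩
      (List.mem_map_of_mem (f := fun s : Reg => (⟨Op.sub, s, [9], [9]⟩ : Instr)) hx)
    have h2 : ival (fin (Q3 R N src rsrc) (s2 A b)) ⟨Op.sub, x, [9], [9]⟩ = 0 := sub_self _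
    rw [h2] at h1
    refine Eq.trans h1 ?_
    rcases mem_aux.1 hx with ⟨i, j, -, -, rfl⟩ | ⟨i, j, -, -, rfl⟩ | ⟨i, j, -, -, rfl⟩ |
      ⟨i, -, rfl⟩ | ⟨i, -, rfl⟩ | ⟨i, -, rfl⟩ | rfl | rfl <;> rfl
  · rw [keep4 hx]
    have hs2 : s2 A b x = start A b x := by
      refine (keep2 ?_).trans ?_
      · rintro rfl
        exact hx (mem_aux.2 (by simp))
      · refine fin_of_not _ _ (fun I hI => ?_) _
        rintro rfl
        refine hx (mem_aux.2 ?_)
        rcases mem_Q1.1 hI with ⟨i, j, h1, h2, rfl⟩ | ⟨i, j, h1, h2, rfl⟩ |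
          ⟨i, j, h1, h2, rfl⟩ | ⟨i, h1, rfl⟩ | ⟨i, h1, rfl⟩ | ⟨i, h1, rfl⟩ | rfl
        · exact Or.inl ⟨i, j, h1, h2, rfl⟩
        · exact Or.inr (Or.inl ⟨i, j, h1, h2, rfl⟩)
        · exact Or.inr (Or.inr (Or.inl ⟨i, j, h1, h2, rfl⟩))
        · exact Or.inr (Or.inr (Or.inr (Or.inl ⟨i, h1, rfl⟩)))
        · exact Or.inr (Or.inr (Or.inr (Or.inr (Or.inl ⟨i, h1, rfl⟩))))
        · exact Or.inr (Or.inr (Or.inr (Or.inr (Or.inr (Or.inl ⟨i, h1, rfl⟩)))))
        · exact Or.inr (Or.inr (Or.inr (Or.inr (Or.inr (Or.inr (Or.inl rfl))))))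
    by_cases hx0 : ∃ i j, x = [0, i, j]
    · obtain ⟨i, j, rfl⟩ := hx0
      by_cases hij : i < R ∧ j < N
      · have h1 := fin_par (Q3 R N src rsrc) (par_Q3 hs hr) (s2 A b)
          ⟨Op.add, [0, i, j], src i j, [9]⟩ (mem_Q3.2 (Or.inl ⟨i, j, hij.1, hij.2, rfl⟩))
        refine Eq.trans h1 ?_
        show s2 A b (src i j) + s2 A b [9] = if h : i < R ∧ j < N then _ else 0
        rw [dif_pos hij, s2_9, add_zero, s2_sym A b (hs i j hij.1 hij.2)]
      · rw [keep3 ?_ (fun i _ => by simp), hs2]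
        · show (if h : i < m ∧ j < n then _ else (0 : ℝ)) = if h : i < R ∧ j < N then _ else 0
          rw [dif_neg hij, dif_neg (fun h => hij ⟨by omega, by omega⟩)]
        · intro i' j' h1 h2 h3
          simp only [List.cons.injEq, and_true, true_and] at h3
          exact hij ⟨by omega, by omega⟩
    · by_cases hx1 : ∃ i, x = [1, i]
      · obtain ⟨i, rfl⟩ := hx1
        by_cases hi : i < R
        · have h1 := fin_par (Q3 R N src rsrc) (par_Q3 hs hr) (s2 A b)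
            ⟨Op.add, [1, i], rsrc i, [9]⟩ (mem_Q3.2 (Or.inr ⟨i, hi, rfl⟩))
          refine Eq.trans h1 ?_
          show s2 A b (rsrc i) + s2 A b [9] = if h : i < R then _ else 0
          rw [dif_pos hi, s2_9, add_zero, s2_sym A b (hr i hi)]
        · rw [keep3 (fun i j _ _ => by simp) ?_, hs2]
          · show (if h : i < m then _ else (0 : ℝ)) = if h : i < R then _ else 0
            rw [dif_neg hi, dif_neg (by omega)]
          · intro i' h1 h3
            simp only [List.cons.injEq, and_true, true_and] at h3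
            omega
      · rw [keep3 (fun i j _ _ h => hx0 ⟨i, j, h⟩) (fun i _ h => hx1 ⟨i, h⟩), hs2]
        by_cases h2 : x = [2]
        · subst h2
          rfl
        · unfold start
          split
          · exact absurd ⟨_, _, rfl⟩ hx0
          · exact absurd ⟨_, rfl⟩ hx1
          · exact absurd rfl h2
          · rfl

end store

end Pool.Agent.U23.LR
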