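import Mathlib

/-!
# A polynomial whose nonnegative multiples encode a system of linear inequalities
-/

set_option autoImplicit false

namespace Pool.Agent.U23.LR

open Finset

/-- the coefficients of the polynomial -/
noncomputable def co (L : ℕ) (D : ℕ → ℕ → ℝ) (K : ℝ) (k : ℕ) : ℝ :=
  if k % L = 0 then K else if (k % L) % 2 = 1 then D (k / L) ((k % L - 1) / 2)
  else -D (k / L) ((k % L - 1) / 2)

/-- the error term of the partial sums -/
noncomputable def er (L : ℕ) (D : ℕ → ℕ → ℝ) (k : ℕ) : ℝ :=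
  if k % L ≠ 0 ∧ (k % L) % 2 = 0 then D (k / L) ((k % L - 2) / 2) else 0

/-- the partial sums -/
noncomputable def Fp (L : ℕ) (D : ℕ → ℕ → ℝ) (K : ℝ) (k : ℕ) : ℝ :=
  K * (((k + L - 1) / L : ℕ) : ℝ) + er L D k

theorem mod_at {L i s : ℕ} (hs : s < L) : (L * i + s) % L = s := by
  rw [Nat.mul_add_mod, Nat.mod_eq_of_lt hs]

theorem div_at {L i s : ℕ} (hs : s < L) : (L * i + s) / L = i := by
  rw [Nat.mul_add_div (by omega), Nat.div_eq_of_lt hs, add_zero]

theorem co_at (L : ℕ) (D : ℕ → ℕ → ℝ) (K : ℝ) {i s : ℕ} (hs : s < L) :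
    co L D K (L * i + s) = if s = 0 then K else if s % 2 = 1 then D i ((s - 1) / 2)
      else -D i ((s - 1) / 2) := by
  unfold co
  rw [mod_at hs, div_at hs]

theorem er_at (L : ℕ) (D : ℕ → ℕ → ℝ) {i s : ℕ} (hs : s < L) :
    er L D (L * i + s) = if s ≠ 0 ∧ s % 2 = 0 then D i ((s - 2) / 2) else 0 := by
  unfold er
  rw [mod_at hs, div_at hs]

theorem ceil_at {L i s : ℕ} (hs : s < L) :
    (L * i + s + L - 1) / L = if s = 0 then i else i + 1 := by
  split_ifs with h
  · subst h
    rw [show L * i + 0 + L - 1 = L * i + (L - 1) by omega]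
    exact div_at (by omega)
  · rw [show L * i + s + L - 1 = L * (i + 1) + (s - 1) by
      rw [Nat.mul_succ]; omega]
    exact div_at (by omega)

theorem Fp_at (L : ℕ) (D : ℕ → ℕ → ℝ) (K : ℝ) {i s : ℕ} (hs : s < L) :
    Fp L D K (L * i + s) = K * ((if s = 0 then i else i + 1 : ℕ) : ℝ) +
      if s ≠ 0 ∧ s % 2 = 0 then D i ((s - 2) / 2) else 0 := by
  unfold Fp
  rw [er_at L D hs, ceil_at hs]

theorem Fp_succ {n : ℕ} (D : ℕ → ℕ → ℝ) (K : ℝ) (hn : 1 ≤ n) (k : ℕ) :
    Fp (2 * n + 1) D K (k + 1) = Fp (2 * n + 1) D K k + co (2 * n + 1) D K k := by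
  set L := 2 * n + 1 with hL
  obtain ⟨i, s, hs, rfl⟩ : ∃ i s, s < L ∧ k = L * i + s :=
    ⟨k / L, k % L, Nat.mod_lt _ (by omega), (Nat.div_add_mod k L).symm⟩
  rw [Fp_at L D K hs, co_at L D K hs]
  by_cases h0 : s = 0
  · subst h0
    rw [show L * i + 0 + 1 = L * i + 1 by omega, Fp_at L D K (show 1 < L by omega)]
    simp only [one_ne_zero, if_false, if_true, Nat.one_mod, and_false, ne_eq, not_true_eq_false,
      false_and, add_zero, not_false_eq_true, true_and]
    push_cast
    ring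
  · rw [if_neg h0]
    by_cases h1 : s % 2 = 1
    · have h2 : s + 1 < L := by omega
      rw [show L * i + s + 1 = L * i + (s + 1) by omega, Fp_at L D K h2,
        if_neg (by omega : ¬ s + 1 = 0), if_pos (⟨by omega, by omega⟩ : s + 1 ≠ 0 ∧ (s + 1) % 2 = 0),
        if_neg h0, if_neg (by omega : ¬ (s ≠ 0 ∧ s % 2 = 0)), if_pos h1,
        show (s + 1 - 2) / 2 = (s - 1) / 2 by omega]
      ring
    · rw [if_neg h1, if_neg h0, if_pos (⟨h0, by omega⟩ : s ≠ 0 ∧ s % 2 = 0)]
      by_cases h3 : s = 2 * n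
      · rw [show L * i + s + 1 = L * (i + 1) + 0 by rw [Nat.mul_succ]; omega,
          Fp_at L D K (show 0 < L by omega), if_pos rfl, if_neg (by simp),
          show (s - 2) / 2 = (s - 1) / 2 by omega]
        ring
      · have h2 : s + 1 < L := by omega
        rw [show L * i + s + 1 = L * i + (s + 1) by omega, Fp_at L D K h2,
          if_neg (by omega : ¬ s + 1 = 0),
          if_neg (by omega : ¬ (s + 1 ≠ 0 ∧ (s + 1) % 2 = 0)),
          show (s - 2) / 2 = (s - 1) / 2 by omega]
        ring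

theorem Fp_zero (L : ℕ) (hL : 1 ≤ L) (D : ℕ → ℕ → ℝ) (K : ℝ) : Fp L D K 0 = 0 := by
  have := Fp_at L D K (i := 0) (s := 0) (by omega)
  simpa using this

/-- the coefficients, cut off -/
noncomputable def cc (m n : ℕ) (D : ℕ → ℕ → ℝ) (K : ℝ) (k : ℕ) : ℝ :=
  if k ≤ m * (2 * n + 1) then co (2 * n + 1) D K k else 0

theorem sum_cc {m n : ℕ} (hn : 1 ≤ n) (D : ℕ → ℕ → ℝ) (K : ℝ) (k : ℕ) :
    ∑ l ∈ range k, cc m n D K l = Fp (2 * n + 1) D K (min k (m * (2 * n + 1) + 1)) := by
  induction k with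
  | zero => rw [range_zero, sum_empty, Nat.zero_min, Fp_zero _ (by omega)]
  | succ k ih =>
    rw [sum_range_succ, ih]
    unfold cc
    split_ifs with h
    · rw [min_eq_left (by omega), min_eq_left (by omega), Fp_succ D K hn]
    · rw [min_eq_right (by omega), min_eq_right (by omega), add_zero]

/-- sums over windows -/
theorem sum_window (c : ℕ → ℝ) (r N : ℕ) :
    ∑ j ∈ range N, (if j ≤ r then c (r - j) else 0) =
      ∑ l ∈ range (r + 1), c l - ∑ l ∈ range (r + 1 - N), c l := by
  induction N with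
  | zero => simp
  | succ N ih =>
    rw [sum_range_succ, ih]
    split_ifs with h
    · have e : ∑ l ∈ range (r - N + 1), c l = ∑ l ∈ range (r - N), c l + c (r - N) :=
        sum_range_succ _ _
      rw [show r + 1 - N = (r - N) + 1 by omega, e, show r + 1 - (N + 1) = r - N by omega]
      ring
    · rw [show r + 1 - N = 0 by omega, show r + 1 - (N + 1) = 0 by omega]
      simp

theorem abs_er {L : ℕ} {D : ℕ → ℕ → ℝ} {K : ℝ} (hD : ∀ i q, 2 * |D i q| < K) (k : ℕ) :
    2 * |er L D k| < K := by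
  unfold er
  split_ifs
  · exact hD _ _
  · have := hD 0 0
    have h1 := abs_nonneg (D 0 0)
    simp only [abs_zero, mul_zero]
    linarith

/-- **The sums over the windows are positive, except for the data rows.** -/
theorem window_pos {m n : ℕ} (hn : 1 ≤ n) {D : ℕ → ℕ → ℝ} {K : ℝ}
    (hD : ∀ i q, 2 * |D i q| < K) {r : ℕ} (hr : r < m * (2 * n + 1) + 2 * n)
    (h : ∀ i < m, r ≠ (2 * n + 1) * i + 2 * n) :
    0 < ∑ j ∈ range (2 * n), (if j ≤ r then cc m n D K (r - j) else 0) := by
  rw [sum_window, sum_cc hn, sum_cc hn]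
  set L := 2 * n + 1 with hL
  set a := min (r + 1 - 2 * n) (m * L + 1) with ha
  set b := min (r + 1) (m * L + 1) with hb
  have hK : 0 < K := by
    have h1 := hD 0 0
    have h2 := abs_nonneg (D 0 0)
    linarith
  have key : (a + L - 1) / L + 1 ≤ (b + L - 1) / L := by
    have ha' : a = r + 1 - 2 * n := by
      rw [ha]
      exact min_eq_left (by omega)
    rw [ha']
    rcases le_or_gt (r + 1) (m * L + 1) with h1 | h1
    · have hb' : b = r + 1 := min_eq_left h1
      rw [hb']
      rcases Nat.lt_or_ge (r + 1) L with h2 | h2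
      · rw [show r + 1 - 2 * n = 0 by omega, show 0 + L - 1 = L - 1 by omega,
          Nat.div_eq_of_lt (by omega), show r + 1 + L - 1 = L * 1 + r by omega,
          div_at (by omega)]
      · rw [show r + 1 - 2 * n + L - 1 = r + 1 by omega]
        obtain ⟨i, s, hs, hrs⟩ : ∃ i s, s < L ∧ r + 1 = L * i + s :=
          ⟨(r + 1) / L, (r + 1) % L, Nat.mod_lt _ (by omega), (Nat.div_add_mod _ L).symm⟩
        rw [hrs, div_at hs, ceil_at hs, if_neg]
        rintro rfl
        obtain ⟨i', rfl⟩ : ∃ i', i = i' + 1 := ⟨i - 1, by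
          rcases i with _ | i
          · simp at hrs
          · omega⟩
        refine h i' ?_ ?_
        · by_contra h3
          have h4 : m + 1 ≤ i' + 1 := by omega
          have h5 : L * (m + 1) ≤ L * (i' + 1) := Nat.mul_le_mul_left _ h4
          rw [Nat.mul_succ, mul_comm L m] at h5
          omega
        · rw [Nat.mul_succ] at hrs
          omega
    · have hb' : b = m * L + 1 := min_eq_right (by omega)
      have h2 : (b + L - 1) / L = m + 1 := by
        have e : L * (m + 1) = m * L + L := by ring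
        rw [hb', show m * L + 1 + L - 1 = L * (m + 1) + 0 by omega]
        exact div_at (by omega)
      rw [h2]
      have h3 : (r + 1 - 2 * n + L - 1) / L ≤ m := by
        have h4 : r + 1 - 2 * n + L - 1 ≤ L * m + (L - 1) := by
          rw [mul_comm L m]
          omega
        calc _ ≤ (L * m + (L - 1)) / L := Nat.div_le_div_right h4
          _ = m := div_at (by omega)
      omega
  unfold Fp
  have h1 := abs_er (L := L) hD a
  have h2 := abs_er (L := L) hD b
  have h3 : K * ((((a + L - 1) / L : ℕ) : ℝ) + 1) ≤ K * (((b + L - 1) / L : ℕ) : ℝ) := by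
    refine mul_le_mul_of_nonneg_left ?_ hK.le
    exact_mod_cast key
  have h4 := le_abs_self (er L D a)
  have h5 := neg_abs_le (er L D b)
  nlinarith

theorem sum_pairs (g : ℕ → ℝ) (n : ℕ) :
    ∑ j ∈ range (2 * n), g j = ∑ q ∈ range n, (g (2 * q) + g (2 * q + 1)) := by
  induction n with
  | zero => simp
  | succ n ih =>
    rw [show 2 * (n + 1) = 2 * n + 1 + 1 by ring, sum_range_succ, sum_range_succ, ih,
      sum_range_succ]
    ring

/-- **The data rows.** -/
theorem data_row {m n : ℕ} (D : ℕ → ℕ → ℝ) (K : ℝ) {i : ℕ} (hi : i < m) (x : ℕ → ℝ) :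
    ∑ j ∈ range (2 * n), (if j ≤ (2 * n + 1) * i + 2 * n then
      cc m n D K ((2 * n + 1) * i + 2 * n - j) else 0) * x j =
    ∑ q ∈ range n, D i q * (x (2 * n - 1 - 2 * q) - x (2 * n - 2 - 2 * q)) := by
  rw [← sum_range_reflect, sum_pairs]
  refine sum_congr rfl fun q hq => ?_
  rw [mem_range] at hq
  have hle : (2 * n + 1) * i + 2 * n ≤ m * (2 * n + 1) := by
    have h1 : (2 * n + 1) * (i + 1) ≤ (2 * n + 1) * m := Nat.mul_le_mul_left _ hi
    rw [Nat.mul_succ] at h1
    rw [mul_comm m]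
    omega
  have h1 : (2 * n + 1) * i + 2 * n - (2 * n - 1 - 2 * q) = (2 * n + 1) * i + (2 * q + 1) := by
    omega
  have h2 : (2 * n + 1) * i + 2 * n - (2 * n - 1 - (2 * q + 1)) =
      (2 * n + 1) * i + (2 * q + 2) := by omega
  have e1 : (if 2 * n - 1 - 2 * q ≤ (2 * n + 1) * i + 2 * n then
      cc m n D K ((2 * n + 1) * i + 2 * n - (2 * n - 1 - 2 * q)) else 0) = D i q := by
    rw [if_pos (by omega), h1]
    unfold cc
    rw [if_pos (by omega), co_at _ D K (by omega), if_neg (by omega), if_pos (by omega),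
      show (2 * q + 1 - 1) / 2 = q by omega]
  have e2 : (if 2 * n - 1 - (2 * q + 1) ≤ (2 * n + 1) * i + 2 * n then
      cc m n D K ((2 * n + 1) * i + 2 * n - (2 * n - 1 - (2 * q + 1))) else 0) = -D i q := by
    rw [if_pos (by omega), h2]
    unfold cc
    rw [if_pos (by omega), co_at _ D K (by omega), if_neg (by omega), if_neg (by omega),
      show (2 * q + 2 - 1) / 2 = q by omega]
  rw [e1, e2, show 2 * n - 1 - (2 * q + 1) = 2 * n - 2 - 2 * q by omega]
  ring

/-- the left-hand side of row `r` -/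
noncomputable def lhs (m n : ℕ) (D : ℕ → ℕ → ℝ) (K : ℝ) (x : ℕ → ℝ) (r : ℕ) : ℝ :=
  ∑ j ∈ range (2 * n), (if j ≤ r then cc m n D K (r - j) else 0) * x j

theorem lhs_add (m n : ℕ) (D : ℕ → ℕ → ℝ) (K : ℝ) (x : ℕ → ℝ) (t : ℝ) (r : ℕ) :
    lhs m n D K (fun j => x j + t) r = lhs m n D K x r +
      (∑ j ∈ range (2 * n), (if j ≤ r then cc m n D K (r - j) else 0)) * t := by
  unfold lhs
  rw [sum_mul, ← sum_add_distrib]
  exact sum_congr rfl fun j _ => by ring

/-- **Solutions of the data rows can be shifted to solutions of all rows, with positive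
coordinates.** -/
theorem exists_shift {m n : ℕ} (hn : 1 ≤ n) {D : ℕ → ℕ → ℝ} {K : ℝ}
    (hD : ∀ i q, 2 * |D i q| < K) (y : ℕ → ℝ) : ∃ x : ℕ → ℝ, (∀ j < 2 * n, 0 < x j) ∧
      (∀ r < m * (2 * n + 1) + 2 * n, (∀ i < m, r ≠ (2 * n + 1) * i + 2 * n) →
        0 ≤ lhs m n D K x r) ∧
      ∀ i < m, lhs m n D K x ((2 * n + 1) * i + 2 * n) = ∑ q ∈ range n, D i q * y q := by
  set z : ℕ → ℝ := fun j => if j % 2 = 1 then y ((2 * n - 1 - j) / 2) else 0 with hz
  have h1 : ∀ᶠ t : ℝ in Filter.atTop, ∀ j ∈ range (2 * n), 0 < z j + t := by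
    rw [Filter.eventually_all_finset]
    intro j _
    exact (Filter.tendsto_atTop_add_const_left _ _ Filter.tendsto_id).eventually_gt_atTop 0
  have h2 : ∀ᶠ t : ℝ in Filter.atTop, ∀ r ∈ range (m * (2 * n + 1) + 2 * n),
      (∀ i < m, r ≠ (2 * n + 1) * i + 2 * n) → 0 ≤ lhs m n D K (fun j => z j + t) r := by
    rw [Filter.eventually_all_finset]
    intro r hr
    by_cases h : ∀ i < m, r ≠ (2 * n + 1) * i + 2 * n
    · have h3 := window_pos hn hD (mem_range.1 hr) h
      have h4 : Filter.Tendsto (fun t : ℝ => lhs m n D K z r +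
          (∑ j ∈ range (2 * n), (if j ≤ r then cc m n D K (r - j) else 0)) * t)
          Filter.atTop Filter.atTop :=
        Filter.tendsto_atTop_add_const_left _ _
          (Filter.Tendsto.const_mul_atTop h3 Filter.tendsto_id)
      filter_upwards [h4.eventually_ge_atTop 0] with t ht _
      rw [lhs_add]
      exact ht
    · exact Filter.Eventually.of_forall fun t h' => absurd h' h
  obtain ⟨t, h3, h4⟩ := (h1.and h2).exists
  refine ⟨fun j => z j + t, fun j hj => h3 j (mem_range.2 hj),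
    fun r hr h => h4 r (mem_range.2 hr) h, fun i hi => ?_⟩
  unfold lhs
  rw [data_row D K hi]
  refine sum_congr rfl fun q hq => ?_
  rw [mem_range] at hq
  congr 1
  simp only [hz]
  rw [if_pos (by omega), if_neg (by omega), show (2 * n - 1 - (2 * n - 1 - 2 * q)) / 2 = q by omega]
  ring

end Pool.Agent.U23.LR
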